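import Mathlib
import Pool.Agent.KalaiFewCore
import Pool.Agent.KalaiFewGeom

/-!
# Equality in the 3^d conjecture, few pairs: faces and realizable sign vectors
-/

open scoped BigOperators

open Pool.Agent.KalaiFew

namespace Pool.Agent.K3E

/-- the linear functional given by a vector -/
noncomputable def DD {d : ℕ} (w : Fin d → ℝ) : StrongDual ℝ (Fin d → ℝ) :=
  ∑ k, w k • ContinuousLinearMap.proj k

lemma DD_apply {d : ℕ} (w x : Fin d → ℝ) : DD w x = w ⬝ᵥ x := by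
  simp [DD, dotProduct]

/-- nonempty exposed faces -/
def Fc {d : ℕ} (P : Set (Fin d → ℝ)) : Set (Set (Fin d → ℝ)) :=
  {F | IsExposed ℝ P F ∧ F.Nonempty}

/-- the linear map of a family of vectors -/
noncomputable def TL {d m : ℕ} (w : Fin m → Fin d → ℝ) : (Fin d → ℝ) →ₗ[ℝ] (Fin m → ℝ) :=
  LinearMap.pi fun i => (DD (w i)).toLinearMap

lemma TL_apply {d m : ℕ} (w : Fin m → Fin d → ℝ) (z : Fin d → ℝ) (i : Fin m) :
    TL w z i = w i ⬝ᵥ z := by
  show DD (w i) z = _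
  exact DD_apply _ _

lemma TL_inj {d m : ℕ} (w : Fin m → Fin d → ℝ) (h : ∀ z, (∀ i, w i ⬝ᵥ z = 0) → z = 0) :
    Function.Injective (TL w) := by
  rw [← LinearMap.ker_eq_bot, LinearMap.ker_eq_bot']
  intro z hz
  apply h
  intro i
  rw [← TL_apply, hz]
  rfl

lemma hyperplane {d : ℕ} (w : Fin (d + 1) → Fin d → ℝ)
    (h : ∀ z, (∀ i, w i ⬝ᵥ z = 0) → z = 0) :
    ∃ a : Fin (d + 1) → ℝ, (∃ i, a i ≠ 0) ∧
      ∀ y : Fin (d + 1) → ℝ, ∑ i, a i * y i = 0 ↔ ∃ z, ∀ i, w i ⬝ᵥ z = y i := by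
  classical
  have hT := TL_inj w h
  have hfr : Module.finrank ℝ (LinearMap.range (TL w)) = d := by
    rw [LinearMap.finrank_range_of_inj hT]; simp
  have hlt : LinearMap.range (TL w) < ⊤ := by
    rw [lt_top_iff_ne_top]
    intro h
    rw [h] at hfr
    simp at hfr
  obtain ⟨f, hf0, hf⟩ := Submodule.exists_le_ker_of_lt_top _ hlt
  have hker : Module.finrank ℝ (LinearMap.ker f) = d := by
    have h1 := LinearMap.finrank_range_add_finrank_ker f
    have h2 : LinearMap.range f = ⊤ := LinearMap.range_eq_top.2 (LinearMap.surjective hf0)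
    rw [h2] at h1
    simp at h1
    omega
  have heq : LinearMap.range (TL w) = LinearMap.ker f :=
    Submodule.eq_of_le_of_finrank_eq hf (by rw [hfr, hker])
  have hfy : ∀ y, f y = ∑ i, f (Pi.single i 1) * y i := by
    intro y
    have : y = ∑ i, y i • (Pi.single i (1 : ℝ) : Fin (d + 1) → ℝ) := by
      funext k
      simp [Finset.sum_apply, Pi.single_apply]
    conv_lhs => rw [this, map_sum]
    simp only [map_smul, smul_eq_mul]
    exact Finset.sum_congr rfl fun i _ => mul_comm _ _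
  refine ⟨fun i => f (Pi.single i 1), ?_, fun y => ?_⟩
  · by_contra hcon
    push Not at hcon
    apply hf0
    apply LinearMap.ext
    intro y
    rw [hfy y]
    simp [hcon]
  · rw [← hfy y, ← LinearMap.mem_ker, ← heq, LinearMap.mem_range]
    constructor
    · rintro ⟨z, hz⟩
      exact ⟨z, fun i => by rw [← TL_apply, hz]⟩
    · rintro ⟨z, hz⟩
      exact ⟨z, by funext i; rw [TL_apply, hz]⟩

lemma inj_of_bounded {d m : ℕ} (w : Fin m → Fin d → ℝ) {P : Set (Fin d → ℝ)}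
    (hP : P = {x | ∀ i, |w i ⬝ᵥ x| ≤ 1}) (hb : Bornology.IsBounded P) (z : Fin d → ℝ)
    (hz' : ∀ i, w i ⬝ᵥ z = 0) : z = 0 := by
  by_contra hne
  obtain ⟨C, hC⟩ := hb.exists_norm_le
  have hmem : ∀ t : ℝ, t • z ∈ P := by
    intro t
    rw [hP]
    intro i
    rw [dotProduct_smul, smul_eq_mul, hz' i]; simp
  have hzn : 0 < ‖z‖ := norm_pos_iff.2 hne
  have h1 := hC _ (hmem ((|C| + 1) / ‖z‖))
  rw [norm_smul, Real.norm_eq_abs, abs_div, abs_of_pos hzn, div_mul_cancel₀ _ hzn.ne',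
    abs_of_nonneg (by positivity)] at h1
  have := le_abs_self C
  linarith

/-- facet version -/
lemma facet_count {d m : ℕ} (w : Fin m → Fin d → ℝ) {P : Set (Fin d → ℝ)}
    (hP : P = {x | ∀ i, |w i ⬝ᵥ x| ≤ 1}) (a : Fin m → ℝ)
    (ha : ∀ y : Fin m → ℝ, ∑ i, a i * y i = 0 → ∃ z, ∀ i, w i ⬝ᵥ z = y i)
    (hfin : (Fc P).Finite) :
    {s : Fin m → ZMod 3 | Real' a s}.ncard ≤ (Fc P).ncard := by
  classical
  refine Set.ncard_le_ncard_of_injOn
    (fun s => {x | x ∈ P ∧ ∀ i, s i ≠ 0 → w i ⬝ᵥ x = sg (s i)}) ?_ ?_ hfin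
  · intro s hs
    obtain ⟨y, hy1, hy2, hy3⟩ := hs
    obtain ⟨z, hzi⟩ := ha y hy3
    have hzP : z ∈ P := by
      rw [hP]; intro i
      rw [hzi i]
      by_cases h : s i = 0
      · exact (hy1 i h).le
      · rw [hy2 i h, abs_sg h]
    have hzF : z ∈ {x | x ∈ P ∧ ∀ i, s i ≠ 0 → w i ⬝ᵥ x = sg (s i)} :=
      ⟨hzP, fun i hi => by rw [hzi i, hy2 i hi]⟩
    refine ⟨fun _ => ?_, ⟨z, hzF⟩⟩
    -- exposing functional
    set l : StrongDual ℝ (Fin d → ℝ) := ∑ i, (sg (s i)) • DD (w i) with hl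
    have hlx : ∀ x, l x = ∑ i, sg (s i) * (w i ⬝ᵥ x) := by
      intro x
      simp [hl, DD_apply]
    have hbound : ∀ x ∈ P, ∀ i, sg (s i) * (w i ⬝ᵥ x) ≤ sg (s i) * sg (s i) := by
      intro x hx i
      by_cases h : s i = 0
      · simp [h, sg]
      · rw [sg_sq h]
        rw [hP] at hx
        have h1 := hx i
        calc sg (s i) * (w i ⬝ᵥ x) ≤ |sg (s i) * (w i ⬝ᵥ x)| := le_abs_self _
          _ = |w i ⬝ᵥ x| := by rw [abs_mul, abs_sg h, one_mul]
          _ ≤ 1 := h1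
    have hval : ∀ x, (x ∈ P ∧ ∀ i, s i ≠ 0 → w i ⬝ᵥ x = sg (s i)) →
        l x = ∑ i, sg (s i) * sg (s i) := by
      intro x hx
      rw [hlx]
      refine Finset.sum_congr rfl fun i _ => ?_
      by_cases h : s i = 0
      · simp [h, sg]
      · rw [hx.2 i h]
    refine ⟨l, ?_⟩
    ext x
    constructor
    · intro hx
      refine ⟨hx.1, fun u hu => ?_⟩
      rw [hval x hx, hlx]
      exact Finset.sum_le_sum fun i _ => hbound u hu i
    · rintro ⟨hxP, hmax⟩
      refine ⟨hxP, fun i hi => ?_⟩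
      have h1 := hmax z hzP
      rw [hval z hzF, hlx x] at h1
      have h2 : ∀ j ∈ Finset.univ, sg (s j) * (w j ⬝ᵥ x) = sg (s j) * sg (s j) := by
        by_contra hcon
        simp only [Finset.mem_univ, true_implies, not_forall] at hcon
        obtain ⟨j, hj⟩ := hcon
        have : ∑ i, sg (s i) * (w i ⬝ᵥ x) < ∑ i, sg (s i) * sg (s i) :=
          Finset.sum_lt_sum (fun i _ => hbound x hxP i)
            ⟨j, Finset.mem_univ _, lt_of_le_of_ne (hbound x hxP j) hj⟩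
        linarith
      have h3 := h2 i (Finset.mem_univ _)
      have h4 : sg (s i) ≠ 0 := by
        intro h0
        have := sg_sq hi
        rw [h0] at this; simp at this
      exact mul_left_cancel₀ h4 h3
  · intro s hs s' hs' hFF
    obtain ⟨y, hy1, hy2, hy3⟩ := hs
    obtain ⟨z, hzi⟩ := ha y hy3
    obtain ⟨y', hy1', hy2', hy3'⟩ := hs'
    obtain ⟨z', hzi'⟩ := ha y' hy3'
    have hmem : ∀ (s : Fin m → ZMod 3) (y : Fin m → ℝ) (z : Fin d → ℝ),
        (∀ i, s i = 0 → |y i| < 1) → (∀ i, s i ≠ 0 → y i = sg (s i)) →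
        (∀ i, w i ⬝ᵥ z = y i) →
        z ∈ {x | x ∈ P ∧ ∀ i, s i ≠ 0 → w i ⬝ᵥ x = sg (s i)} := by
      intro s y z h1 h2 h3
      refine ⟨?_, fun i hi => by rw [h3 i, h2 i hi]⟩
      rw [hP]; intro i
      rw [h3 i]
      by_cases h : s i = 0
      · exact (h1 i h).le
      · rw [h2 i h, abs_sg h]
    have hzF := hmem s y z hy1 hy2 hzi
    have hzF' := hmem s' y' z' hy1' hy2' hzi'
    have hFF' : {x | x ∈ P ∧ ∀ i, s i ≠ 0 → w i ⬝ᵥ x = sg (s i)} =
        {x | x ∈ P ∧ ∀ i, s' i ≠ 0 → w i ⬝ᵥ x = sg (s' i)} := hFF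
    rw [hFF'] at hzF
    rw [← hFF'] at hzF'
    funext i
    by_cases h : s i = 0
    · by_cases h' : s' i = 0
      · rw [h, h']
      · exfalso
        have e1 := hzF.2 i h'
        rw [hzi i] at e1
        have e2 := hy1 i h
        rw [e1, abs_sg h'] at e2
        exact lt_irrefl _ e2
    · have e1 := hzF'.2 i h
      rw [hzi' i] at e1
      by_cases h' : s' i = 0
      · exfalso
        have e2 := hy1' i h'
        rw [e1, abs_sg h] at e2
        exact lt_irrefl _ e2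
      · rw [hy2' i h'] at e1
        exact sg_inj e1.symm

lemma vertex_le {d m : ℕ} (v : Fin m → Fin d → ℝ) {P : Set (Fin d → ℝ)}
    (hP : P = convexHull ℝ (Set.range v ∪ Set.range (fun i => -v i))) (z : Fin d → ℝ) (c : ℝ)
    (hc : ∀ i, |v i ⬝ᵥ z| ≤ c) : ∀ x ∈ P, z ⬝ᵥ x ≤ c := by
  intro x hx
  have hconv : Convex ℝ {x : Fin d → ℝ | z ⬝ᵥ x ≤ c} := by
    have := (convex_halfSpace_le (f := fun x : Fin d → ℝ => z ⬝ᵥ x)
      (⟨fun x y => dotProduct_add _ _ _, fun r x => by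
        simp [dotProduct_smul]⟩ : IsLinearMap ℝ (fun x : Fin d → ℝ => z ⬝ᵥ x)) c)
    exact this
  have hsub : Set.range v ∪ Set.range (fun i => -v i) ⊆ {x : Fin d → ℝ | z ⬝ᵥ x ≤ c} := by
    rintro u (⟨i, rfl⟩ | ⟨i, rfl⟩)
    · show z ⬝ᵥ v i ≤ c
      rw [dotProduct_comm]; exact (le_abs_self _).trans (hc i)
    · show z ⬝ᵥ (-v i) ≤ c
      rw [dotProduct_neg, dotProduct_comm]; exact (neg_le_abs _).trans (hc i)
  rw [hP] at hx
  exact convexHull_min hsub hconv hx

lemma inj_of_interior {d m : ℕ} (v : Fin m → Fin d → ℝ) {P : Set (Fin d → ℝ)}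
    (hP : P = convexHull ℝ (Set.range v ∪ Set.range (fun i => -v i)))
    (hint : (interior P).Nonempty) (z : Fin d → ℝ) (hz' : ∀ i, v i ⬝ᵥ z = 0) : z = 0 := by
  have hle := vertex_le v hP
  by_contra hne
  obtain ⟨x₀, hx₀⟩ := hint
  have hopen : IsOpen (interior P) := isOpen_interior
  have hzero : ∀ x ∈ P, z ⬝ᵥ x = 0 := by
    intro x hx
    have h1 := hle z 0 (fun i => by rw [hz' i]; simp) x hx
    have h2 := hle (-z) 0 (fun i => by rw [dotProduct_neg, hz' i]; simp) x hx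
    rw [neg_dotProduct] at h2
    linarith
  -- move a little in direction z
  have hcont : Continuous (fun t : ℝ => x₀ + t • z) := by fun_prop
  have hmem : (fun t : ℝ => x₀ + t • z) ⁻¹' interior P ∈ nhds (0 : ℝ) := by
    apply hcont.continuousAt.preimage_mem_nhds
    apply hopen.mem_nhds
    simpa using hx₀
  obtain ⟨ε, hε, hball⟩ := Metric.mem_nhds_iff.1 hmem
  have h1 : x₀ + (ε / 2) • z ∈ interior P := by
    apply hball
    rw [Metric.mem_ball, dist_zero_right, Real.norm_eq_abs, abs_of_pos (by positivity)]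
    linarith
  have h2 := hzero _ (interior_subset h1)
  have h3 := hzero _ (interior_subset hx₀)
  rw [dotProduct_add, h3, zero_add, dotProduct_smul, smul_eq_mul] at h2
  have h4 : z ⬝ᵥ z = 0 := by
    rcases mul_eq_zero.1 h2 with h | h
    · linarith
    · exact h
  exact hne (dotProduct_self_eq_zero.1 h4)

/-- vertex version -/
lemma vertex_count {d m : ℕ} (v : Fin (m + 1) → Fin d → ℝ) {P : Set (Fin d → ℝ)}
    (hP : P = convexHull ℝ (Set.range v ∪ Set.range (fun i => -v i))) (a : Fin (m + 1) → ℝ)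
    (ha : ∀ y : Fin (m + 1) → ℝ, ∑ i, a i * y i = 0 → ∃ z, ∀ i, v i ⬝ᵥ z = y i)
    (hfin : (Fc P).Finite) :
    {s : Fin (m + 1) → ZMod 3 | Real' a s}.ncard ≤ (Fc P).ncard := by
  classical
  have hvP : ∀ i, v i ∈ P := fun i => by
    rw [hP]; exact subset_convexHull ℝ _ (Or.inl ⟨i, rfl⟩)
  have hvP' : ∀ i, -v i ∈ P := fun i => by
    rw [hP]; exact subset_convexHull ℝ _ (Or.inr ⟨i, rfl⟩)
  have hle := vertex_le v hP
  -- choose functionals
  have hch : ∀ s : Fin (m + 1) → ZMod 3, ∃ z : Fin d → ℝ, Real' a s →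
      (∀ i, s i = 0 → |v i ⬝ᵥ z| < 1) ∧ (∀ i, s i ≠ 0 → v i ⬝ᵥ z = sg (s i)) := by
    intro s
    by_cases h : Real' a s
    · obtain ⟨y, hy1, hy2, hy3⟩ := h
      obtain ⟨z, hzi⟩ := ha y hy3
      exact ⟨z, fun _ => ⟨fun i hi => by rw [hzi i]; exact hy1 i hi,
        fun i hi => by rw [hzi i]; exact hy2 i hi⟩⟩
    · exact ⟨0, fun h' => absurd h' h⟩
  choose Z hZ using hch
  set Z' : (Fin (m + 1) → ZMod 3) → Fin d → ℝ := fun s => if s = 0 then 0 else Z s with hZ'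
  have hFdef : ∀ s, Real' a s → s ≠ 0 → ∀ x ∈ P,
      ((∀ u ∈ P, Z' s ⬝ᵥ u ≤ Z' s ⬝ᵥ x) ↔ Z s ⬝ᵥ x = 1) := by
    intro s hs hs0 x hx
    have hZs : Z' s = Z s := by simp [hZ', hs0]
    rw [hZs]
    obtain ⟨h1, h2⟩ := hZ s hs
    have hall : ∀ i, |v i ⬝ᵥ Z s| ≤ 1 := by
      intro i
      by_cases h : s i = 0
      · exact (h1 i h).le
      · rw [h2 i h, abs_sg h]
    have hbd := hle (Z s) 1 hall
    obtain ⟨i, hi⟩ : ∃ i, s i ≠ 0 := by
      by_contra hcon
      simp only [not_exists, not_not] at hcon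
      exact hs0 (funext hcon)
    constructor
    · intro hmax
      apply le_antisymm (hbd x hx)
      have hsg : sg (s i) = 1 ∨ sg (s i) = -1 := by
        unfold sg; rw [if_neg hi]; split_ifs <;> simp
      rcases hsg with h | h
      · have := hmax _ (hvP i)
        rw [dotProduct_comm, h2 i hi, h] at this
        exact this
      · have := hmax _ (hvP' i)
        rw [dotProduct_neg, dotProduct_comm, h2 i hi, h] at this
        linarith
    · intro hx1 u hu
      rw [hx1]; exact hbd u hu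
  refine Set.ncard_le_ncard_of_injOn
    (fun s => {x | x ∈ P ∧ ∀ u ∈ P, Z' s ⬝ᵥ u ≤ Z' s ⬝ᵥ x}) ?_ ?_ hfin
  · intro s hs
    refine ⟨fun _ => ⟨DD (Z' s), by simp only [DD_apply]⟩, ?_⟩
    by_cases hs0 : s = 0
    · refine ⟨v 0, hvP 0, fun u _ => ?_⟩
      simp [hZ', hs0]
    · obtain ⟨i, hi⟩ : ∃ i, s i ≠ 0 := by
        by_contra hcon
        simp only [not_exists, not_not] at hcon
        exact hs0 (funext hcon)
      obtain ⟨h1, h2⟩ := hZ s hs
      have hsg : sg (s i) = 1 ∨ sg (s i) = -1 := by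
        unfold sg; rw [if_neg hi]; split_ifs <;> simp
      rcases hsg with h | h
      · refine ⟨v i, hvP i, (hFdef s hs hs0 _ (hvP i)).2 ?_⟩
        rw [dotProduct_comm, h2 i hi, h]
      · refine ⟨-v i, hvP' i, (hFdef s hs hs0 _ (hvP' i)).2 ?_⟩
        rw [dotProduct_neg, dotProduct_comm, h2 i hi, h]; norm_num
  · intro s hs s' hs' hFF
    have hFF' : {x | x ∈ P ∧ ∀ u ∈ P, Z' s ⬝ᵥ u ≤ Z' s ⬝ᵥ x} =
        {x | x ∈ P ∧ ∀ u ∈ P, Z' s' ⬝ᵥ u ≤ Z' s' ⬝ᵥ x} := hFF
    -- membership of generators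
    have hm : ∀ s, Real' a s → s ≠ 0 → ∀ i,
        ((v i ∈ {x | x ∈ P ∧ ∀ u ∈ P, Z' s ⬝ᵥ u ≤ Z' s ⬝ᵥ x}) ↔ sg (s i) = 1) ∧
        ((-v i ∈ {x | x ∈ P ∧ ∀ u ∈ P, Z' s ⬝ᵥ u ≤ Z' s ⬝ᵥ x}) ↔ sg (s i) = -1) := by
      intro s hs hs0 i
      obtain ⟨h1, h2⟩ := hZ s hs
      have e0 : ∀ w ∈ P, (w ∈ {x | x ∈ P ∧ ∀ u ∈ P, Z' s ⬝ᵥ u ≤ Z' s ⬝ᵥ x}) ↔
          Z s ⬝ᵥ w = 1 := by
        intro w hw
        rw [← hFdef s hs hs0 w hw]
        exact ⟨fun h => h.2, fun h => ⟨hw, h⟩⟩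
      rw [e0 _ (hvP i), e0 _ (hvP' i), dotProduct_neg, dotProduct_comm]
      by_cases h : s i = 0
      · have h3 := abs_lt.1 (h1 i h)
        have h4 : sg (s i) = 0 := by simp [h, sg]
        rw [h4]
        constructor
        · constructor
          · intro h5; rw [h5] at h3; linarith [h3.2]
          · intro h5; norm_num at h5
        · constructor
          · intro h5; linarith [h3.1]
          · intro h5; norm_num at h5
      · rw [h2 i h]
        constructor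
        · exact Iff.rfl
        · constructor
          · intro h5; linarith
          · intro h5; linarith
    have hz0 : ∀ s, s = 0 → {x | x ∈ P ∧ ∀ u ∈ P, Z' s ⬝ᵥ u ≤ Z' s ⬝ᵥ x} = P := by
      intro s hs0
      ext x
      constructor
      · intro h; exact h.1
      · intro h; exact ⟨h, fun u _ => by simp [hZ', hs0]⟩
    have hnP : ∀ s, Real' a s → s ≠ 0 →
        {x | x ∈ P ∧ ∀ u ∈ P, Z' s ⬝ᵥ u ≤ Z' s ⬝ᵥ x} ≠ P := by
      intro s hs hs0 heq
      have h1 := (hm s hs hs0 0).1.1 (by rw [heq]; exact hvP 0)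
      have h2 := (hm s hs hs0 0).2.1 (by rw [heq]; exact hvP' 0)
      rw [h1] at h2; norm_num at h2
    by_cases h0 : s = 0
    · by_cases h0' : s' = 0
      · rw [h0, h0']
      · exfalso
        apply hnP s' hs' h0'
        rw [← hFF', hz0 s h0]
    · by_cases h0' : s' = 0
      · exfalso
        apply hnP s hs h0
        rw [hFF', hz0 s' h0']
      · funext i
        obtain ⟨p1, p2⟩ := hm s hs h0 i
        obtain ⟨q1, q2⟩ := hm s' hs' h0' i
        rw [hFF'] at p1 p2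
        have r1 : sg (s i) = 1 ↔ sg (s' i) = 1 := p1.symm.trans q1
        have r2 : sg (s i) = -1 ↔ sg (s' i) = -1 := p2.symm.trans q2
        have tri : ∀ c : ZMod 3, sg c = 0 ∨ sg c = 1 ∨ sg c = -1 := by
          intro c
          unfold sg
          split_ifs <;> simp
        apply sg_inj
        rcases tri (s i) with h | h | h
        · rcases tri (s' i) with h' | h' | h'
          · rw [h, h']
          · rw [r1.2 h', h']
          · rw [r2.2 h', h']
        · rw [h, r1.1 h]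
        · rw [h, r2.1 h]

end Pool.Agent.K3E
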