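import Mathlib
import Pool.Agent.K3E.Geo

/-!
# Equality in the 3^d conjecture, few pairs: affine equivalences and faces
-/

open scoped BigOperators

namespace Pool.Agent.K3E

/-- affine map -/
def aff {d : ℕ} (L : (Fin d → ℝ) ≃ₗ[ℝ] (Fin d → ℝ)) (c : Fin d → ℝ) (x : Fin d → ℝ) :
    Fin d → ℝ := L x + c

lemma aff_inv {d : ℕ} (L : (Fin d → ℝ) ≃ₗ[ℝ] (Fin d → ℝ)) (c x : Fin d → ℝ) :
    aff L.symm (-(L.symm c)) (aff L c x) = x := by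
  simp [aff]

lemma aff_inv' {d : ℕ} (L : (Fin d → ℝ) ≃ₗ[ℝ] (Fin d → ℝ)) (c x : Fin d → ℝ) :
    aff L c (aff L.symm (-(L.symm c)) x) = x := by
  simp [aff]

lemma aff_image_inv {d : ℕ} (L : (Fin d → ℝ) ≃ₗ[ℝ] (Fin d → ℝ)) (c : Fin d → ℝ)
    (A : Set (Fin d → ℝ)) : aff L.symm (-(L.symm c)) '' (aff L c '' A) = A := by
  rw [Set.image_image]
  simp [aff_inv]

lemma aff_image_inv' {d : ℕ} (L : (Fin d → ℝ) ≃ₗ[ℝ] (Fin d → ℝ)) (c : Fin d → ℝ)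
    (A : Set (Fin d → ℝ)) : aff L c '' (aff L.symm (-(L.symm c)) '' A) = A := by
  rw [Set.image_image]
  simp [aff_inv']

lemma aff_inj {d : ℕ} (L : (Fin d → ℝ) ≃ₗ[ℝ] (Fin d → ℝ)) (c : Fin d → ℝ) :
    Function.Injective (aff L c) := by
  intro x y h
  rw [← aff_inv L c x, h, aff_inv]

lemma Fc_aff {d : ℕ} (L : (Fin d → ℝ) ≃ₗ[ℝ] (Fin d → ℝ)) (c : Fin d → ℝ)
    {P F : Set (Fin d → ℝ)} (h : F ∈ Fc P) : aff L c '' F ∈ Fc (aff L c '' P) := by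
  obtain ⟨h1, h2⟩ := h
  refine ⟨fun _ => ?_, h2.image _⟩
  obtain ⟨l, hl⟩ := h1 h2
  refine ⟨l.comp (LinearMap.toContinuousLinearMap L.symm.toLinearMap), ?_⟩
  have hlv : ∀ x, (l.comp (LinearMap.toContinuousLinearMap L.symm.toLinearMap)) (aff L c x) =
      l x + l (L.symm c) := by
    intro x
    show l (L.symm (L x + c)) = _
    rw [map_add, LinearEquiv.symm_apply_apply, map_add]
  ext y
  constructor
  · rintro ⟨x, hx, rfl⟩
    rw [hl] at hx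
    refine ⟨⟨x, hx.1, rfl⟩, ?_⟩
    rintro _ ⟨z, hz, rfl⟩
    rw [hlv, hlv]
    have := hx.2 z hz
    linarith
  · rintro ⟨⟨x, hx, rfl⟩, hy⟩
    refine ⟨x, ?_, rfl⟩
    rw [hl]
    refine ⟨hx, fun z hz => ?_⟩
    have := hy _ ⟨z, hz, rfl⟩
    rw [hlv, hlv] at this
    linarith

/-- the isomorphism of face posets -/
noncomputable def fcIso {d : ℕ} (L : (Fin d → ℝ) ≃ₗ[ℝ] (Fin d → ℝ)) (c : Fin d → ℝ)
    (Q : Set (Fin d → ℝ)) : {F : Set (Fin d → ℝ) // F ∈ Fc (aff L c '' Q)} ≃o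
      {G : Set (Fin d → ℝ) // G ∈ Fc Q} where
  toFun F := ⟨aff L.symm (-(L.symm c)) '' F.1, by
    have := Fc_aff L.symm (-(L.symm c)) F.2
    rwa [aff_image_inv] at this⟩
  invFun G := ⟨aff L c '' G.1, Fc_aff L c G.2⟩
  left_inv F := Subtype.ext (aff_image_inv' L c F.1)
  right_inv G := Subtype.ext (aff_image_inv L c G.1)
  map_rel_iff' := by
    intro F F'
    show aff L.symm (-(L.symm c)) '' F.1 ⊆ aff L.symm (-(L.symm c)) '' F'.1 ↔ F.1 ⊆ F'.1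
    exact Set.image_subset_image_iff (aff_inj _ _)

lemma ncard_Fc {d : ℕ} (L : (Fin d → ℝ) ≃ₗ[ℝ] (Fin d → ℝ)) (c : Fin d → ℝ)
    (Q : Set (Fin d → ℝ)) : (Fc (aff L c '' Q)).ncard = (Fc Q).ncard := by
  have := Nat.card_congr (fcIso L c Q).toEquiv
  exact this

end Pool.Agent.K3E
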