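import Mathlib

/-!
# Equality in the 3^d conjecture, few pairs: the weight lemma
-/

open scoped BigOperators

namespace Pool.Agent.K3E

/-- class weights -/
def wt {n : ℕ} {κ : Type} [DecidableEq κ] (b : Fin n → ℝ) (c : Fin n → κ) (k : κ) : ℝ :=
  ∑ i, if c i = k then b i else 0

lemma wt_nonneg {n : ℕ} {κ : Type} [DecidableEq κ] {b : Fin n → ℝ} (hb : ∀ i, 0 ≤ b i)
    (c : Fin n → κ) (k : κ) : 0 ≤ wt b c k := by
  unfold wt
  exact Finset.sum_nonneg fun i _ => by split_ifs <;> simp [hb i]

lemma wt_sum {n : ℕ} {κ : Type} [DecidableEq κ] [Fintype κ] (b : Fin n → ℝ)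
    (c : Fin n → κ) : ∑ k, wt b c k = ∑ i, b i := by
  unfold wt
  rw [Finset.sum_comm]
  refine Finset.sum_congr rfl fun i _ => ?_
  simp

lemma wt_comp {n : ℕ} {κ κ' : Type} [DecidableEq κ] [DecidableEq κ'] [Fintype κ]
    (b : Fin n → ℝ) (c : Fin n → κ) (g : κ → κ') (y : κ') :
    wt b (fun i => g (c i)) y = ∑ j, if g j = y then wt b c j else 0 := by
  unfold wt
  have h1 : ∀ j, (if g j = y then ∑ i, (if c i = j then b i else 0) else 0) =
      ∑ i, if g j = y then (if c i = j then b i else 0) else 0 := by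
    intro j
    split_ifs <;> simp
  simp only [h1]
  rw [Finset.sum_comm]
  refine Finset.sum_congr rfl fun i _ => ?_
  have h2 : ∀ j, (if g j = y then (if c i = j then b i else 0) else 0) =
      if c i = j then (if g (c i) = y then b i else 0) else 0 := by
    intro j
    by_cases hj : c i = j
    · subst hj; simp
    · simp [hj]
  simp only [h2]
  simp

lemma le_wt {n : ℕ} {κ : Type} [DecidableEq κ] {b : Fin n → ℝ} (hb : ∀ i, 0 ≤ b i)
    (c : Fin n → κ) (i : Fin n) : b i ≤ wt b c (c i) := by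
  unfold wt
  have := Finset.single_le_sum (f := fun j => if c j = c i then b j else 0)
    (fun j _ => by split_ifs <;> simp [hb j]) (Finset.mem_univ i)
  simpa using this

lemma wt_merge {n k : ℕ} {b : Fin n → ℝ} (c : Fin n → Fin (k + 1))
    (j1 j2 : Fin (k + 1)) (hne : j1 ≠ j2) (W : ℝ) (h : ∀ j, 2 * wt b c j < W)
    (h12 : 2 * (wt b c j1 + wt b c j2) < W) :
    ∃ c' : Fin n → Fin k, ∀ j, 2 * wt b c' j < W := by
  classical
  obtain ⟨y1, hy1⟩ := Fin.exists_succAbove_eq hne
  have hex : ∀ j : Fin (k + 1), ∃ y, if j = j2 then y = y1 else j2.succAbove y = j := by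
    intro j
    by_cases hj : j = j2
    · exact ⟨y1, by simp [hj]⟩
    · obtain ⟨y, hy⟩ := Fin.exists_succAbove_eq hj
      exact ⟨y, by simp [hj, hy]⟩
  choose g hg using hex
  have hg2 : g j2 = y1 := by simpa using hg j2
  have hgs : ∀ y, g (j2.succAbove y) = y := by
    intro y
    have := hg (j2.succAbove y)
    rw [if_neg (Fin.succAbove_ne j2 y)] at this
    exact Fin.succAbove_right_injective this
  refine ⟨fun i => g (c i), fun y => ?_⟩
  rw [wt_comp, Fin.sum_univ_succAbove _ j2]
  simp only [hg2, hgs]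
  rw [Finset.sum_ite_eq' Finset.univ y (fun x => wt b c (j2.succAbove x))]
  simp only [Finset.mem_univ, if_true]
  by_cases hy : y1 = y
  · subst hy
    rw [if_pos rfl, hy1]
    linarith
  · rw [if_neg hy, zero_add]
    exact h _

lemma five_classes {k : ℕ} (w : Fin (k + 5) → ℝ) (hw : ∀ j, 0 ≤ w j)
    (hW : 0 < ∑ j, w j) : ∃ j1 j2, j1 ≠ j2 ∧ 2 * (w j1 + w j2) < ∑ j, w j := by
  by_contra hcon
  push Not at hcon
  have h5 : ∑ j : Fin 5, w (Fin.castLE (by omega) j) ≤ ∑ j, w j := by
    have h1 : ∑ j : Fin 5, w (Fin.castLE (by omega) j) =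
        ∑ j ∈ (Finset.univ : Finset (Fin 5)).map (Fin.castLEEmb (by omega : 5 ≤ k + 5)), w j := by
      rw [Finset.sum_map]
      rfl
    rw [h1]
    exact Finset.sum_le_sum_of_subset_of_nonneg (Finset.subset_univ _) fun j _ _ => hw j
  rw [Fin.sum_univ_five] at h5
  have hne : ∀ a b : Fin 5, a ≠ b →
      (Fin.castLE (by omega : 5 ≤ k + 5) a) ≠ Fin.castLE (by omega : 5 ≤ k + 5) b := by
    intro a b hab h
    exact hab (Fin.castLE_injective _ h)
  have g1 := hcon _ _ (hne 0 1 (by decide))
  have g2 := hcon _ _ (hne 2 3 (by decide))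
  have g3 := hcon _ _ (hne 2 4 (by decide))
  have g4 := hcon _ _ (hne 3 4 (by decide))
  have p0 := hw (Fin.castLE (by omega : 5 ≤ k + 5) 0)
  have p1 := hw (Fin.castLE (by omega : 5 ≤ k + 5) 1)
  have p2 := hw (Fin.castLE (by omega : 5 ≤ k + 5) 2)
  have p3 := hw (Fin.castLE (by omega : 5 ≤ k + 5) 3)
  have p4 := hw (Fin.castLE (by omega : 5 ≤ k + 5) 4)
  linarith

/-- a class of the exceptional partition contains one positive element -/
lemma class_single {n : ℕ} (b : Fin n → ℝ) (hb : ∀ i, 0 ≤ b i)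
    (h : ∀ c : Fin n → ZMod 3, ∃ k, ∑ i, b i ≤ 2 * wt b c k)
    (c : Fin n → Fin 4) (hc : ∀ j, 4 * wt b c j = ∑ i, b i) (i : Fin n) (hci : c i = 0)
    (hi : 0 < b i) : 4 * b i = ∑ i, b i := by
  classical
  by_contra hne
  have hle := le_wt hb c i
  rw [hci] at hle
  have hlt : 4 * b i < ∑ i, b i := by
    have := hc 0
    exact lt_of_le_of_ne (by linarith) hne
  obtain ⟨k, hk⟩ := h (fun t => if t = i then 0 else
    (![1, 0, 1, 2] : Fin 4 → ZMod 3) (c t))
  -- compute the weights
  have key : ∀ k, wt b (fun t => if t = i then (0 : ZMod 3) else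
      (![1, 0, 1, 2] : Fin 4 → ZMod 3) (c t)) k =
      wt b (fun t => (![1, 0, 1, 2] : Fin 4 → ZMod 3) (c t)) k +
        (if (0 : ZMod 3) = k then b i else 0) - (if (1 : ZMod 3) = k then b i else 0) := by
    intro k
    unfold wt
    rw [← Finset.add_sum_erase _ _ (Finset.mem_univ i),
      ← Finset.add_sum_erase (Finset.univ) (fun t => if
        (![1, 0, 1, 2] : Fin 4 → ZMod 3) (c t) = k then b t else 0) (Finset.mem_univ i)]
    have h1 : ∀ t ∈ (Finset.univ.erase i), (if (if t = i then (0 : ZMod 3) else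
        (![1, 0, 1, 2] : Fin 4 → ZMod 3) (c t)) = k then b t else 0) =
        if (![1, 0, 1, 2] : Fin 4 → ZMod 3) (c t) = k then b t else 0 := by
      intro t ht
      rw [if_neg (Finset.ne_of_mem_erase ht)]
    rw [Finset.sum_congr rfl h1]
    have h2 : (![1, 0, 1, 2] : Fin 4 → ZMod 3) (c i) = 1 := by rw [hci]; rfl
    rw [h2]
    simp only [if_true]
    ring
  rw [key k, wt_comp, Fin.sum_univ_four] at hk
  have c0 := hc 0
  have c1 := hc 1
  have c2 := hc 2
  have c3 := hc 3
  have e0 : (![1, 0, 1, 2] : Fin 4 → ZMod 3) 0 = 1 := rfl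
  have e1 : (![1, 0, 1, 2] : Fin 4 → ZMod 3) 1 = 0 := rfl
  have e2 : (![1, 0, 1, 2] : Fin 4 → ZMod 3) 2 = 1 := rfl
  have e3 : (![1, 0, 1, 2] : Fin 4 → ZMod 3) 3 = 2 := rfl
  rw [e0, e1, e2, e3] at hk
  have n01 : (0 : ZMod 3) ≠ 1 := by decide
  have n10 : (1 : ZMod 3) ≠ 0 := by decide
  have n20 : (2 : ZMod 3) ≠ 0 := by decide
  have n21 : (2 : ZMod 3) ≠ 1 := by decide
  have n02 : (0 : ZMod 3) ≠ 2 := by decide
  have n12 : (1 : ZMod 3) ≠ 2 := by decide
  have h3 : ∀ k : ZMod 3, k = 0 ∨ k = 1 ∨ k = 2 := by decide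
  rcases h3 k with rfl | rfl | rfl
  · rw [if_neg n10, if_pos rfl, if_neg n20, if_pos rfl] at hk
    simp only [if_neg n10, add_zero, zero_add, sub_zero] at hk
    linarith
  · rw [if_pos rfl, if_neg n01, if_neg n21] at hk
    simp only [if_true, if_neg n01, add_zero] at hk
    linarith
  · rw [if_neg n12, if_neg n02, if_pos rfl] at hk
    simp only [if_neg n02, if_neg n12, add_zero, zero_add, sub_zero] at hk
    linarith

theorem weight_lemma {n : ℕ} (b : Fin n → ℝ) (hb : ∀ i, 0 ≤ b i) (hpos : 0 < ∑ i, b i)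
    (h : ∀ c : Fin n → ZMod 3, ∃ k, ∑ i, b i ≤ 2 * wt b c k) :
    (∃ i, ∑ j, b j ≤ 2 * b i) ∨ ∀ i, b i ≠ 0 → 4 * b i = ∑ j, b j := by
  classical
  by_contra hcon
  push Not at hcon
  obtain ⟨hsmall, i0, hi0, hi0'⟩ := hcon
  have hex : ∃ m, ∃ c : Fin n → Fin m, ∀ j, 2 * wt b c j < ∑ i, b i := by
    refine ⟨n, id, fun j => ?_⟩
    have : wt b id j = b j := by
      unfold wt
      simp
    rw [this]
    exact hsmall j
  have hfind := Nat.find_spec hex
  have hmin := fun m (hm : m < Nat.find hex) => Nat.find_min hex hm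
  set m := Nat.find hex with hm
  obtain ⟨c, hc⟩ := hfind
  have hsum := wt_sum b c
  rcases Nat.lt_or_ge m 4 with h4 | h4
  · -- at most three classes
    have h3 : m ≤ 3 := by omega
    have hginj : ∀ j j' : Fin m, ((j.val : ℕ) : ZMod 3) = ((j'.val : ℕ) : ZMod 3) → j = j' := by
      intro j j' hjj
      rw [ZMod.natCast_eq_natCast_iff'] at hjj
      have h1 := j.isLt
      have h2 := j'.isLt
      apply Fin.ext
      rw [Nat.mod_eq_of_lt (by omega), Nat.mod_eq_of_lt (by omega)] at hjj
      exact hjj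
    obtain ⟨k, hk⟩ := h (fun i => (((c i).val : ℕ) : ZMod 3))
    rw [wt_comp b c (fun j => ((j.val : ℕ) : ZMod 3)) k] at hk
    by_cases hkr : ∃ j : Fin m, ((j.val : ℕ) : ZMod 3) = k
    · obtain ⟨j0, hj0⟩ := hkr
      have h1 : ∑ j : Fin m, (if ((j.val : ℕ) : ZMod 3) = k then wt b c j else 0) =
          wt b c j0 := by
        rw [Finset.sum_eq_single j0]
        · rw [if_pos hj0]
        · intro j _ hj
          rw [if_neg]
          intro hj'
          exact hj (hginj _ _ (hj'.trans hj0.symm))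
        · intro hj
          exact absurd (Finset.mem_univ _) hj
      rw [h1] at hk
      have := hc j0
      linarith
    · have h1 : ∑ j : Fin m, (if ((j.val : ℕ) : ZMod 3) = k then wt b c j else 0) = 0 := by
        refine Finset.sum_eq_zero fun j _ => ?_
        rw [if_neg]
        intro hj
        exact hkr ⟨j, hj⟩
      rw [h1] at hk
      linarith
  · have hpair : ∀ j1 j2 : Fin m, j1 ≠ j2 → ∑ i, b i ≤ 2 * (wt b c j1 + wt b c j2) := by
      intro j1 j2 hne
      by_contra hlt
      push Not at hlt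
      obtain ⟨k, hk⟩ : ∃ k, m = k + 1 := ⟨m - 1, by omega⟩
      clear_value m
      subst hk
      obtain ⟨c', hc'⟩ := wt_merge c j1 j2 hne _ hc hlt
      exact hmin k (by omega) ⟨c', hc'⟩
    rcases Nat.lt_or_ge m 5 with h5 | h5
    · have hm4 : m = 4 := by omega
      clear_value m
      subst hm4
      rw [Fin.sum_univ_four] at hsum
      have p01 := hpair 0 1 (by decide)
      have p23 := hpair 2 3 (by decide)
      have p02 := hpair 0 2 (by decide)
      have p13 := hpair 1 3 (by decide)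
      have p03 := hpair 0 3 (by decide)
      have p12 := hpair 1 2 (by decide)
      have hq : ∀ j, 4 * wt b c j = ∑ i, b i := by
        intro j
        fin_cases j
        · show 4 * wt b c 0 = _
          linarith
        · show 4 * wt b c 1 = _
          linarith
        · show 4 * wt b c 2 = _
          linarith
        · show 4 * wt b c 3 = _
          linarith
      -- move the class of i0 to position 0
      have hq' : ∀ j, 4 * wt b (fun t => Equiv.swap (c i0) 0 (c t)) j = ∑ i, b i := by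
        intro j
        rw [wt_comp, Finset.sum_eq_single (Equiv.swap (c i0) 0 j)]
        · rw [Equiv.swap_apply_self, if_pos rfl]
          exact hq _
        · intro t _ ht
          rw [if_neg]
          intro ht'
          apply ht
          rw [← ht', Equiv.swap_apply_self]
        · intro hj
          exact absurd (Finset.mem_univ _) hj
      exact hi0' (class_single b hb h _ hq' i0 (Equiv.swap_apply_left _ _)
        (lt_of_le_of_ne (hb i0) (Ne.symm hi0)))
    · obtain ⟨k, hk⟩ : ∃ k, m = k + 5 := ⟨m - 5, by omega⟩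
      clear_value m
      subst hk
      obtain ⟨j1, j2, hne, hlt⟩ := five_classes (wt b c) (wt_nonneg hb c)
        (by rw [hsum]; exact hpos)
      have := hpair j1 j2 hne
      rw [hsum] at hlt
      linarith

end Pool.Agent.K3E
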