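import Mathlib
import Pool.Agent.KalaiFewCore
import Pool.Agent.K3E.Wt

/-!
# Equality in the 3^d conjecture, few pairs: counting realizable sign vectors
-/

open scoped BigOperators

open Pool.Agent.KalaiFew

namespace Pool.Agent.K3E

lemma shift_real {n : ℕ} (a : Fin n → ℝ) (s : Fin n → ZMod 3) (j : ZMod 3)
    (hj0 : |wt (fun i => |a i|) (fun i => -(s i) * al a i) (j + 1) -
      wt (fun i => |a i|) (fun i => -(s i) * al a i) (j - 1)| <
      wt (fun i => |a i|) (fun i => -(s i) * al a i) j) :
    Real' a (fun i => s i + j * al a i) := by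
  classical
  set c : Fin n → ZMod 3 := fun i => -(s i) * al a i with hc
  set W : ZMod 3 → ℝ := fun k => ∑ i, if c i = k then |a i| else 0 with hW
  have hj : |W (j + 1) - W (j - 1)| < W j ∨ (W j = 0 ∧ W (j + 1) = W (j - 1)) := Or.inl hj0
  -- choose t
  obtain ⟨t, ht1, ht2⟩ : ∃ t : ℝ, |t| < 1 ∧ t * W j + W (j - 1) - W (j + 1) = 0 := by
    rcases hj with h | ⟨h0, h1⟩
    · have hpos : 0 < W j := lt_of_le_of_lt (abs_nonneg _) h
      refine ⟨(W (j + 1) - W (j - 1)) / W j, ?_, ?_⟩
      · rw [abs_div, abs_of_pos hpos, div_lt_one hpos]; exact h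
      · field_simp; ring
    · exact ⟨0, by simp, by rw [h0, h1]; ring⟩
  refine ⟨fun i => if c i = j then t * ep a i else if c i = j - 1 then ep a i else -ep a i,
    ?_, ?_, ?_⟩
  · intro i hi
    replace hi : s i + j * al a i = 0 := hi
    have hci : c i = j := by
      have hal : al a i = 1 ∨ al a i = -1 := by unfold al; split_ifs <;> simp
      simp only [hc]
      rcases hal with h | h <;> rw [h] at hi ⊢
      · linear_combination -hi
      · linear_combination hi
    simp only [hci, if_true]
    have : |ep a i| = 1 := by unfold ep; split_ifs <;> simp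
    rw [abs_mul, this, mul_one]; exact ht1
  · intro i hi
    replace hi : s i + j * al a i ≠ 0 := hi
    have hci : c i ≠ j := by
      intro hci
      apply hi
      rw [← hci]
      simp only [hc]
      have hal : al a i * al a i = 1 := by unfold al; split_ifs <;> decide
      linear_combination -(s i) * hal
    simp only [hci, if_false]
    have key : ∀ (x jj : ZMod 3) (b : Bool),
        (-(x) * (if b then 1 else -1) ≠ jj) →
        ((if -(x) * (if b then (1 : ZMod 3) else -1) = jj - 1 then true else false) =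
          decide ((x + jj * (if b then (1 : ZMod 3) else -1)) = (if b then 1 else -1))) ∧
        ((if -(x) * (if b then (1 : ZMod 3) else -1) = jj - 1 then false else true) =
          decide ((x + jj * (if b then (1 : ZMod 3) else -1)) = -(if b then 1 else -1))) := by
      decide
    by_cases hb : 0 ≤ a i
    · have hal : al a i = 1 := by simp [al, hb]
      have hep : ep a i = 1 := by simp [ep, hb]
      have hk := key (s i) j true (by simpa [hc, hal] using hci)
      simp only [if_true] at hk
      simp only [hc, hal, hep]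
      by_cases hh : -(s i) * 1 = j - 1
      · rw [if_pos hh]
        rw [if_pos hh, if_pos hh] at hk
        have h1 : s i + j * 1 = 1 := of_decide_eq_true hk.1.symm
        rw [h1]; simp [sg]
      · rw [if_neg hh]
        rw [if_neg hh, if_neg hh] at hk
        have h1 : s i + j * 1 = -1 := of_decide_eq_true hk.2.symm
        rw [h1]
        have n0 : (-1 : ZMod 3) ≠ 0 := by decide
        have n1 : (-1 : ZMod 3) ≠ 1 := by decide
        simp [sg, n0, n1]
    · have hal : al a i = -1 := by simp [al, hb]
      have hep : ep a i = -1 := by simp [ep, hb]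
      have hk := key (s i) j false (by simpa [hc, hal] using hci)
      simp only [Bool.false_eq_true, if_false] at hk
      simp only [hc, hal, hep]
      have n0 : (-1 : ZMod 3) ≠ 0 := by decide
      have n1 : (-1 : ZMod 3) ≠ 1 := by decide
      by_cases hh : -(s i) * -1 = j - 1
      · rw [if_pos hh]
        rw [if_pos hh, if_pos hh] at hk
        have h1 : s i + j * -1 = -1 := of_decide_eq_true hk.1.symm
        rw [h1]; simp [sg, n0, n1]
      · rw [if_neg hh]
        rw [if_neg hh, if_neg hh] at hk
        have h1 : s i + j * -1 = - -1 := of_decide_eq_true hk.2.symm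
        rw [h1]
        simp [sg]
  · have hterm : ∀ i, a i * (if c i = j then t * ep a i else if c i = j - 1 then ep a i
        else -ep a i) = t * (if c i = j then |a i| else 0) +
          (if c i = j - 1 then |a i| else 0) - (if c i = j + 1 then |a i| else 0) := by
      intro i
      have tri : ∀ x jj : ZMod 3, (x = jj ∧ x ≠ jj - 1 ∧ x ≠ jj + 1) ∨
          (x ≠ jj ∧ x = jj - 1 ∧ x ≠ jj + 1) ∨ (x ≠ jj ∧ x ≠ jj - 1 ∧ x = jj + 1) := by decide
      rcases tri (c i) j with ⟨h1, h2, h3⟩ | ⟨h1, h2, h3⟩ | ⟨h1, h2, h3⟩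
      · rw [if_pos h1, if_pos h1, if_neg h2, if_neg h3, ← a_mul_ep]; ring
      · rw [if_neg h1, if_pos h2, if_neg h1, if_pos h2, if_neg h3, ← a_mul_ep]; ring
      · rw [if_neg h1, if_neg h2, if_neg h1, if_neg h2, if_pos h3, ← a_mul_ep]; ring
    simp only [hterm]
    rw [Finset.sum_sub_distrib, Finset.sum_add_distrib, ← Finset.mul_sum]
    exact ht2


/-- the orbit map -/
lemma unique_shift {d : ℕ} (a : Fin (d + 1) → ℝ)
    (h : {s : Fin (d + 1) → ZMod 3 | Real' a s}.ncard ≤ 3 ^ d)
    (s : Fin (d + 1) → ZMod 3) (j1 j2 : ZMod 3)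
    (h1 : Real' a (fun i => s i + j1 * al a i))
    (h2 : Real' a (fun i => s i + j2 * al a i)) : j1 = j2 := by
  classical
  set R : Finset (Fin (d + 1) → ZMod 3) := Finset.univ.filter (fun s => Real' a s) with hR
  have hRc : R.card ≤ 3 ^ d := by
    have h4 : {s : Fin (d + 1) → ZMod 3 | Real' a s}.ncard = R.card := by
      rw [← Set.ncard_coe_finset]
      congr 1
      ext s; simp [hR]
    omega
  set D : Finset (ZMod 3 × (Fin (d + 1) → ZMod 3)) := Finset.univ ×ˢ R with hD
  have hsurj : ∀ t ∈ (Finset.univ : Finset (Fin (d + 1) → ZMod 3)), ∃ p ∈ D,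
      (fun i => p.2 i - p.1 * al a i) = t := by
    intro t _
    obtain ⟨j, hj⟩ := shift_exists a t
    refine ⟨(j, fun i => t i + j * al a i), ?_, ?_⟩
    · rw [hD, Finset.mem_product, hR, Finset.mem_filter]
      exact ⟨Finset.mem_univ _, Finset.mem_univ _, hj⟩
    · funext i
      simp
  have hcard : D.card ≤ (Finset.univ : Finset (Fin (d + 1) → ZMod 3)).card := by
    rw [hD, Finset.card_product]
    have e1 : (Finset.univ : Finset (ZMod 3)).card = 3 := by decide
    have e2 : (Finset.univ : Finset (Fin (d + 1) → ZMod 3)).card = 3 ^ (d + 1) := by simp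
    rw [e1, e2, pow_succ]
    omega
  have hinj := Finset.inj_on_of_surj_on_of_card_le
    (fun (p : ZMod 3 × (Fin (d + 1) → ZMod 3)) (_ : p ∈ D) => fun i => p.2 i - p.1 * al a i)
    (fun _ _ => Finset.mem_univ _) (by
      intro t ht
      obtain ⟨p, hp, hpt⟩ := hsurj t ht
      exact ⟨p, hp, hpt⟩) hcard
  have hm : ∀ j, Real' a (fun i => s i + j * al a i) →
      (j, fun i => s i + j * al a i) ∈ D := by
    intro j hj
    rw [hD, Finset.mem_product, hR, Finset.mem_filter]
    exact ⟨Finset.mem_univ _, Finset.mem_univ _, hj⟩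
  have := hinj (hm j1 h1) (hm j2 h2) (by funext i; simp)
  exact (Prod.ext_iff.1 this).1

theorem count_classify {d : ℕ} (a : Fin (d + 1) → ℝ) (ha : ∃ i, a i ≠ 0)
    (h : {s : Fin (d + 1) → ZMod 3 | Real' a s}.ncard ≤ 3 ^ d) :
    (∃ i, ∑ j, |a j| ≤ 2 * |a i|) ∨ ∀ i, a i ≠ 0 → 4 * |a i| = ∑ j, |a j| := by
  have hpos : 0 < ∑ i, |a i| := by
    obtain ⟨i, hi⟩ := ha
    exact Finset.sum_pos' (fun j _ => abs_nonneg _) ⟨i, Finset.mem_univ _, abs_pos.2 hi⟩
  have hw := weight_lemma (fun i => |a i|) (fun i => abs_nonneg _) hpos ?_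
  · rcases hw with hw | hw
    · exact Or.inl hw
    · exact Or.inr fun i hi => hw i (by simpa using hi)
  intro c
  by_contra hcon
  push Not at hcon
  -- all three shifts are realizable
  set s : Fin (d + 1) → ZMod 3 := fun i => -(c i) * al a i with hs
  have hal : ∀ i, al a i * al a i = 1 := by
    intro i
    unfold al
    split_ifs <;> decide
  have hcs : (fun i => -(s i) * al a i) = c := by
    funext i
    simp only [hs]
    linear_combination (c i) * (hal i)
  have hsum := wt_sum (fun i => |a i|) c
  have h3 : ∑ k, wt (fun i => |a i|) c k = wt (fun i => |a i|) c 0 +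
      wt (fun i => |a i|) c 1 + wt (fun i => |a i|) c 2 := by
    exact Fin.sum_univ_three _
  rw [h3] at hsum
  have e1 : (0 : ZMod 3) - 1 = 2 := by decide
  have e2 : (1 : ZMod 3) + 1 = 2 := by decide
  have c0 := hcon 0
  have c1 := hcon 1
  have c2 := hcon 2
  have r0 : Real' a (fun i => s i + 0 * al a i) := by
    apply shift_real
    rw [hcs, zero_add, e1, abs_lt]
    constructor <;> linarith
  have r1 : Real' a (fun i => s i + 1 * al a i) := by
    apply shift_real
    rw [hcs, e2, sub_self, abs_lt]
    constructor <;> linarith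
  have := unique_shift a h s 0 1 r0 r1
  exact absurd this (by decide)

end Pool.Agent.K3E
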