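import Mathlib

/-!
# Equality in the 3^d conjecture, few pairs: the Hanner class, cubes and the octahedron
-/

open scoped BigOperators

namespace Pool.Agent.K3E

/-- the cube -/
def Cube (d : ℕ) : Set (Fin d → ℝ) := {x | ∀ i, |x i| ≤ 1}

/-- the polar body -/
def Pol {n : ℕ} (A : Set (Fin n → ℝ)) : Set (Fin n → ℝ) := {y | ∀ x ∈ A, ∑ i, x i * y i ≤ 1}

/-- the product -/
def Pro {m n : ℕ} (A : Set (Fin m → ℝ)) (B : Set (Fin n → ℝ)) : Set (Fin (m + n) → ℝ) :=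
  {z : Fin (m + n) → ℝ |
    (fun i => z (Fin.castAdd n i)) ∈ A ∧ (fun j => z (Fin.natAdd m j)) ∈ B}

/-- Hanner polytopes -/
def Han (d : ℕ) (Q : Set (Fin d → ℝ)) : Prop :=
  ∀ H : (n : ℕ) → Set (Set (Fin n → ℝ)),
    {x : Fin 1 → ℝ | |x 0| ≤ 1} ∈ H 1 →
    (∀ (m n : ℕ) (A : Set (Fin m → ℝ)) (B : Set (Fin n → ℝ)),
      A ∈ H m → B ∈ H n →
      {z : Fin (m + n) → ℝ |
        (fun i => z (Fin.castAdd n i)) ∈ A ∧ (fun j => z (Fin.natAdd m j)) ∈ B} ∈ H (m + n)) →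
    (∀ (n : ℕ) (A : Set (Fin n → ℝ)), A ∈ H n →
      {y : Fin n → ℝ | ∀ x ∈ A, ∑ i, x i * y i ≤ 1} ∈ H n) →
    Q ∈ H d

lemma Han.pro {m n : ℕ} {A : Set (Fin m → ℝ)} {B : Set (Fin n → ℝ)} (hA : Han m A)
    (hB : Han n B) : Han (m + n) (Pro A B) :=
  fun H h1 h2 h3 => h2 m n A B (hA H h1 h2 h3) (hB H h1 h2 h3)

lemma Han.pol {n : ℕ} {A : Set (Fin n → ℝ)} (hA : Han n A) : Han n (Pol A) :=
  fun H h1 h2 h3 => h3 n A (hA H h1 h2 h3)

lemma han_one : Han 1 (Cube 1) := by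
  intro H h1 h2 h3
  have : Cube 1 = {x : Fin 1 → ℝ | |x 0| ≤ 1} := by
    ext x
    constructor
    · intro h
      exact h 0
    · intro h i
      have : i = 0 := Subsingleton.elim _ _
      rw [this]
      exact h
  rw [this]
  exact h1

lemma cube_succ (n : ℕ) : Cube (n + 1) = Pro (Cube n) (Cube 1) := by
  ext x
  constructor
  · intro h
    exact ⟨fun i => h _, fun j => h _⟩
  · rintro ⟨h1, h2⟩ i
    refine Fin.addCases (m := n) (n := 1) (fun i => h1 i) (fun j => h2 j) i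

lemma han_cube (n : ℕ) : Han (n + 1) (Cube (n + 1)) := by
  induction n with
  | zero => exact han_one
  | succ n ih =>
    rw [cube_succ]
    exact ih.pro han_one

lemma han_oct : Han 3 (Pol (Cube 3)) := (han_cube 2).pol

lemma han_oct_cube (m : ℕ) : Han (3 + m) (Pro (Pol (Cube 3)) (Cube m)) := by
  rcases m with _ | m
  · have : Pro (Pol (Cube 3)) (Cube 0) = Pol (Cube 3) := by
      ext x
      constructor
      · intro h
        exact h.1
      · intro h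
        exact ⟨h, fun i => i.elim0⟩
    rw [this]
    exact han_oct
  · exact han_oct.pro (han_cube m)

lemma oct_iff (u : Fin 3 → ℝ) : u ∈ Pol (Cube 3) ↔ |u 0 + u 1 + u 2| ≤ 1 ∧
    |u 0 - u 1 - u 2| ≤ 1 ∧ |u 1 - u 0 - u 2| ≤ 1 ∧ |u 2 - u 0 - u 1| ≤ 1 := by
  constructor
  · intro h
    have key : ∀ a b c : ℝ, |a| ≤ 1 → |b| ≤ 1 → |c| ≤ 1 →
        a * u 0 + b * u 1 + c * u 2 ≤ 1 := by
      intro a b c ha hb hc
      have := h ![a, b, c] (by
        intro i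
        fin_cases i
        · exact ha
        · exact hb
        · exact hc)
      simpa [Fin.sum_univ_three] using this
    have p : |(1 : ℝ)| ≤ 1 := by simp
    have q : |(-1 : ℝ)| ≤ 1 := by simp
    have k1 := key 1 1 1 p p p
    have k2 := key (-1) (-1) (-1) q q q
    have k3 := key 1 (-1) (-1) p q q
    have k4 := key (-1) 1 1 q p p
    have k5 := key (-1) 1 (-1) q p q
    have k6 := key 1 (-1) 1 p q p
    have k7 := key (-1) (-1) 1 q q p
    have k8 := key 1 1 (-1) p p q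
    refine ⟨abs_le.2 ⟨by linarith, by linarith⟩, abs_le.2 ⟨by linarith, by linarith⟩,
      abs_le.2 ⟨by linarith, by linarith⟩, abs_le.2 ⟨by linarith, by linarith⟩⟩
  · rintro ⟨h1, h2, h3, h4⟩ x hx
    have hs : |u 0| + |u 1| + |u 2| ≤ 1 := by
      rw [abs_le] at h1 h2 h3 h4
      rcases abs_cases (u 0) with ⟨e0, _⟩ | ⟨e0, _⟩ <;>
      rcases abs_cases (u 1) with ⟨e1, _⟩ | ⟨e1, _⟩ <;>
      rcases abs_cases (u 2) with ⟨e2, _⟩ | ⟨e2, _⟩ <;>
      rw [e0, e1, e2] <;> linarith [h1.1, h1.2, h2.1, h2.2, h3.1, h3.2, h4.1, h4.2]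
    have ht : ∀ i, x i * u i ≤ |u i| := by
      intro i
      calc x i * u i ≤ |x i * u i| := le_abs_self _
        _ = |x i| * |u i| := abs_mul _ _
        _ ≤ 1 * |u i| := mul_le_mul_of_nonneg_right (hx i) (abs_nonneg _)
        _ = |u i| := one_mul _
    rw [Fin.sum_univ_three]
    linarith [ht 0, ht 1, ht 2]

end Pool.Agent.K3E
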