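import Mathlib
import Pool.Agent.K3E.Han

/-!
# Equality in the 3^d conjecture, few pairs: the four bodies
-/

open scoped BigOperators

namespace Pool.Agent.K3E

/-- the product of the octahedron and a cube -/
def OC (d : ℕ) : Set (Fin d → ℝ) :=
  {x | ∑ i, (if i.val < 3 then |x i| else 0) ≤ 1 ∧ ∀ i, 3 ≤ i.val → |x i| ≤ 1}

/-- the free sum of the three dimensional cube and a cross-polytope -/
def CO (d : ℕ) : Set (Fin d → ℝ) :=
  {x | ∀ j, j.val < 3 → |x j| + ∑ i, (if 3 ≤ i.val then |x i| else 0) ≤ 1}

/-- the cross-polytope -/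
def Cross (d : ℕ) : Set (Fin d → ℝ) := {x | ∑ i, |x i| ≤ 1}

lemma mul_le_abs {x y : ℝ} (hx : |x| ≤ 1) : x * y ≤ |y| := by
  calc x * y ≤ |x * y| := le_abs_self _
    _ = |x| * |y| := abs_mul _ _
    _ ≤ 1 * |y| := mul_le_mul_of_nonneg_right hx (abs_nonneg _)
    _ = |y| := one_mul _

/-- a sign -/
noncomputable def sgn' (y : ℝ) : ℝ := if 0 ≤ y then 1 else -1

lemma sgn'_mul (y : ℝ) : sgn' y * y = |y| := by
  unfold sgn'
  split_ifs with h
  · rw [one_mul, abs_of_nonneg h]
  · push Not at h
    rw [abs_of_neg h]; ring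

lemma abs_sgn' (y : ℝ) : |sgn' y| = 1 := by
  unfold sgn'
  split_ifs <;> simp

lemma pol_cube (d : ℕ) : Pol (Cube d) = Cross d := by
  ext y
  constructor
  · intro h
    have := h (fun i => sgn' (y i)) (fun i => (abs_sgn' _).le)
    simp only [sgn'_mul] at this
    exact this
  · intro h x hx
    exact (Finset.sum_le_sum fun i _ => mul_le_abs (hx i)).trans h

lemma pol_OC {d : ℕ} (hd : 3 ≤ d) : Pol (OC d) = CO d := by
  classical
  ext y
  constructor
  · intro h j hj
    have h1 := h (fun i => if i = j then sgn' (y j) else if 3 ≤ i.val then sgn' (y i) else 0) (by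
      constructor
      · rw [Finset.sum_eq_single j]
        · simp [hj, abs_sgn']
        · intro i _ hi
          by_cases h3 : i.val < 3
          · simp only [if_neg hi]
            rw [if_pos h3, if_neg (by omega), abs_zero]
          · rw [if_neg h3]
        · intro hj'
          exact absurd (Finset.mem_univ _) hj'
      · intro i hi
        have hij : i ≠ j := by
          rintro rfl
          omega
        simp only [if_neg hij, if_pos hi, abs_sgn', le_refl])
    have h2 : ∑ i, (if i = j then sgn' (y j) else if 3 ≤ i.val then sgn' (y i) else 0) * y i =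
        ∑ i, ((if i = j then |y j| else 0) + if 3 ≤ i.val then |y i| else 0) := by
      refine Finset.sum_congr rfl fun i _ => ?_
      by_cases hij : i = j
      · subst hij
        rw [if_pos rfl, if_pos rfl, if_neg (by omega), add_zero, sgn'_mul]
      · rw [if_neg hij, if_neg hij, zero_add]
        by_cases h3 : 3 ≤ i.val
        · rw [if_pos h3, if_pos h3, sgn'_mul]
        · rw [if_neg h3, if_neg h3, zero_mul]
    rw [h2, Finset.sum_add_distrib, Finset.sum_ite_eq' Finset.univ j (fun _ => |y j|)] at h1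
    simpa using h1
  · intro h x hx
    obtain ⟨hx1, hx2⟩ := hx
    set B := ∑ i : Fin d, (if 3 ≤ i.val then |y i| else 0) with hB
    have hj : ∀ j : Fin d, j.val < 3 → |y j| ≤ 1 - B := by
      intro j hj
      have := h j hj
      linarith
    have hB1 : 0 ≤ 1 - B := (abs_nonneg _).trans (hj ⟨0, by omega⟩ (by simp))
    have h1 : ∀ i, x i * y i ≤ (1 - B) * (if i.val < 3 then |x i| else 0) +
        if 3 ≤ i.val then |y i| else 0 := by
      intro i
      by_cases h3 : i.val < 3
      · rw [if_pos h3, if_neg (by omega), add_zero]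
        calc x i * y i ≤ |x i * y i| := le_abs_self _
          _ = |x i| * |y i| := abs_mul _ _
          _ ≤ |x i| * (1 - B) := mul_le_mul_of_nonneg_left (hj i h3) (abs_nonneg _)
          _ = _ := mul_comm _ _
      · rw [if_neg h3, if_pos (by omega), mul_zero, zero_add]
        exact mul_le_abs (hx2 i (by omega))
    calc ∑ i, x i * y i ≤ ∑ i : Fin d, ((1 - B) * (if i.val < 3 then |x i| else 0) +
        if 3 ≤ i.val then |y i| else 0) := Finset.sum_le_sum fun i _ => h1 i
      _ = (1 - B) * (∑ i : Fin d, if i.val < 3 then |x i| else 0) + B := by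
        rw [Finset.sum_add_distrib, ← Finset.mul_sum]
      _ ≤ (1 - B) * 1 + B := by
        have := mul_le_mul_of_nonneg_left hx1 hB1
        linarith
      _ = 1 := by ring

lemma pro_eq_OC (m : ℕ) : Pro (Pol (Cube 3)) (Cube m) = OC (3 + m) := by
  rw [pol_cube]
  ext x
  have h1 : ∑ i : Fin (3 + m), (if i.val < 3 then |x i| else 0) =
      ∑ i : Fin 3, |x (Fin.castAdd m i)| := by
    rw [Fin.sum_univ_add]
    have h2 : ∑ j : Fin m, (if (Fin.natAdd 3 j).val < 3 then |x (Fin.natAdd 3 j)| else 0) = 0 := by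
      refine Finset.sum_eq_zero fun j _ => ?_
      rw [if_neg]
      simp
    rw [h2, add_zero]
    refine Finset.sum_congr rfl fun i _ => ?_
    rw [if_pos]
    simp
  show (∑ i : Fin 3, |x (Fin.castAdd m i)| ≤ 1 ∧ ∀ j : Fin m, |x (Fin.natAdd 3 j)| ≤ 1) ↔
    (∑ i : Fin (3 + m), (if i.val < 3 then |x i| else 0) ≤ 1 ∧ ∀ i, 3 ≤ i.val → |x i| ≤ 1)
  rw [h1]
  refine and_congr Iff.rfl ⟨?_, ?_⟩
  · intro h i
    refine Fin.addCases (m := 3) (n := m) (fun i hi => ?_) (fun j _ => h j) i
    simp at hi
    omega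
  · intro h j
    exact h _ (by simp)

end Pool.Agent.K3E
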