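import Mathlib
import Pool.Agent.K3E.Han
import Pool.Agent.K3E.Geo
import Pool.Agent.K3E.Lst

/-!
# Equality in the 3^d conjecture, few pairs: geometric classification, facet case
-/

open scoped BigOperators

open Pool.Agent.KalaiFew

namespace Pool.Agent.K3E

/-- linear equivalence of an injective family -/
lemma exists_equiv {d : ℕ} (w : Fin d → Fin d → ℝ) (h : ∀ z, (∀ i, w i ⬝ᵥ z = 0) → z = 0) :
    ∃ L : (Fin d → ℝ) ≃ₗ[ℝ] (Fin d → ℝ), ∀ x i, L x i = w i ⬝ᵥ x := by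
  refine ⟨LinearEquiv.ofInjectiveEndo (TL w) (TL_inj w h), fun x i => ?_⟩
  rw [LinearEquiv.coe_ofInjectiveEndo]
  exact TL_apply w x i

lemma classify_one {d : ℕ} (w : Fin (d + 1) → Fin d → ℝ)
    (hinj : ∀ z, (∀ i, w i ⬝ᵥ z = 0) → z = 0) (a : Fin (d + 1) → ℝ) (ha0 : ∃ i, a i ≠ 0)
    (ha : ∀ z, ∑ i, a i * (w i ⬝ᵥ z) = 0) (i0 : Fin (d + 1))
    (hi0 : ∑ j, |a j| ≤ 2 * |a i0|) :
    ∃ L : (Fin d → ℝ) ≃ₗ[ℝ] (Fin d → ℝ),
      {x | ∀ i, |w i ⬝ᵥ x| ≤ 1} = {x | L x ∈ Cube d} := by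
  have hpos : 0 < ∑ i, |a i| := by
    obtain ⟨i, hi⟩ := ha0
    exact Finset.sum_pos' (fun j _ => abs_nonneg _) ⟨i, Finset.mem_univ _, abs_pos.2 hi⟩
  have hai : 0 < |a i0| := by linarith
  have hrel : ∀ z, |a i0| * |w i0 ⬝ᵥ z| ≤
      ∑ k, |a (i0.succAbove k)| * |w (i0.succAbove k) ⬝ᵥ z| := by
    intro z
    have h1 := ha z
    rw [Fin.sum_univ_succAbove _ i0] at h1
    have h2 : a i0 * (w i0 ⬝ᵥ z) =
        -∑ k, a (i0.succAbove k) * (w (i0.succAbove k) ⬝ᵥ z) := by linarith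
    calc |a i0| * |w i0 ⬝ᵥ z| = |a i0 * (w i0 ⬝ᵥ z)| := (abs_mul _ _).symm
      _ = |∑ k, a (i0.succAbove k) * (w (i0.succAbove k) ⬝ᵥ z)| := by rw [h2, abs_neg]
      _ ≤ ∑ k, |a (i0.succAbove k) * (w (i0.succAbove k) ⬝ᵥ z)| :=
        Finset.abs_sum_le_sum_abs _ _
      _ = _ := Finset.sum_congr rfl fun k _ => abs_mul _ _
  obtain ⟨L, hL⟩ := exists_equiv (fun k => w (i0.succAbove k)) (by
    intro z hz
    apply hinj
    have h1 := hrel z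
    simp only [hz, abs_zero, mul_zero, Finset.sum_const_zero] at h1
    have h2 : |w i0 ⬝ᵥ z| ≤ 0 := by
      by_contra hcon
      push Not at hcon
      have := mul_pos hai hcon
      linarith
    have h3 : w i0 ⬝ᵥ z = 0 := abs_eq_zero.1 (le_antisymm h2 (abs_nonneg _))
    intro i
    rcases Fin.eq_self_or_eq_succAbove i0 i with h | ⟨k, h⟩
    · rw [h]; exact h3
    · rw [h]; exact hz k)
  refine ⟨L, ?_⟩
  ext x
  constructor
  · intro h k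
    rw [hL]
    exact h _
  · intro h
    have hk : ∀ k, |w (i0.succAbove k) ⬝ᵥ x| ≤ 1 := by
      intro k
      have := h k
      rwa [hL] at this
    intro i
    rcases Fin.eq_self_or_eq_succAbove i0 i with h' | ⟨k, h'⟩
    · rw [h']
      have h1 := hrel x
      have h2 : ∑ k, |a (i0.succAbove k)| * |w (i0.succAbove k) ⬝ᵥ x| ≤
          ∑ k, |a (i0.succAbove k)| := by
        refine Finset.sum_le_sum fun k _ => ?_
        calc |a (i0.succAbove k)| * |w (i0.succAbove k) ⬝ᵥ x| ≤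
            |a (i0.succAbove k)| * 1 := mul_le_mul_of_nonneg_left (hk k) (abs_nonneg _)
          _ = _ := mul_one _
      rw [Fin.sum_univ_succAbove _ i0] at hi0
      have h3 : |a i0| * |w i0 ⬝ᵥ x| ≤ |a i0| * 1 := by
        rw [mul_one]
        linarith
      exact le_of_mul_le_mul_left h3 hai
    · rw [h']; exact hk k

lemma classify_four {d : ℕ} (w : Fin (d + 1) → Fin d → ℝ)
    (hinj : ∀ z, (∀ i, w i ⬝ᵥ z = 0) → z = 0) (a : Fin (d + 1) → ℝ) (ha0 : ∃ i, a i ≠ 0)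
    (ha : ∀ z, ∑ i, a i * (w i ⬝ᵥ z) = 0)
    (h4 : ∀ i, a i ≠ 0 → 4 * |a i| = ∑ j, |a j|) :
    ∃ (L : (Fin d → ℝ) ≃ₗ[ℝ] (Fin d → ℝ)), 3 ≤ d ∧ Han d (OC d) ∧
      {x | ∀ i, |w i ⬝ᵥ x| ≤ 1} = {x | L x ∈ OC d} := by
  classical
  have hpos : 0 < ∑ i, |a i| := by
    obtain ⟨i, hi⟩ := ha0
    exact Finset.sum_pos' (fun j _ => abs_nonneg _) ⟨i, Finset.mem_univ _, abs_pos.2 hi⟩
  set W := ∑ i, |a i| with hW
  -- the support has four elements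
  have hcard : Fintype.card {i // a i ≠ 0} = 4 := by
    have h1 : ∑ i, |a i| = ∑ i, if a i ≠ 0 then W / 4 else 0 := by
      refine Finset.sum_congr rfl fun i _ => ?_
      by_cases h : a i ≠ 0
      · rw [if_pos h]
        have := h4 i h
        linarith
      · rw [if_neg h]
        push Not at h
        rw [h, abs_zero]
    rw [← hW, ← Finset.sum_filter, Finset.sum_const, nsmul_eq_mul] at h1
    have h2 : ((Finset.univ.filter fun i => a i ≠ 0).card : ℝ) = 4 := by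
      have h3 : W ≠ 0 := hpos.ne'
      field_simp at h1
      linarith
    rw [Fintype.card_subtype]
    exact_mod_cast h2
  have hle : 4 ≤ d + 1 := by
    have := Fintype.card_subtype_le (fun i : Fin (d + 1) => a i ≠ 0)
    rw [hcard, Fintype.card_fin] at this
    exact this
  obtain ⟨m, rfl⟩ : ∃ m, d = 3 + m := ⟨d - 3, by omega⟩
  have hcard2 : Fintype.card {i // ¬ a i ≠ 0} = m := by
    rw [Fintype.card_subtype_compl, hcard, Fintype.card_fin]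
    omega
  have e4 : Fin 4 ≃ {i // a i ≠ 0} := (Fintype.equivFinOfCardEq hcard).symm
  have em : Fin m ≃ {i // ¬ a i ≠ 0} := (Fintype.equivFinOfCardEq hcard2).symm
  set v : Fin 4 → Fin (3 + m) → ℝ := fun k => ep a (e4 k).1 • w (e4 k).1 with hv
  have hep : ∀ i, ep a i = 1 ∨ ep a i = -1 := by
    intro i
    unfold ep
    split_ifs <;> simp
  have habs : ∀ k x, |v k ⬝ᵥ x| = |w (e4 k).1 ⬝ᵥ x| := by
    intro k x
    simp only [hv, smul_dotProduct, smul_eq_mul]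
    rcases hep (e4 k).1 with h | h <;> rw [h] <;> simp
  have hsum : ∀ f : Fin (3 + m + 1) → ℝ,
      ∑ i, f i = ∑ k, f (e4 k).1 + ∑ j, f (em j).1 := by
    intro f
    rw [← Equiv.sum_comp ((Equiv.sumCongr e4 em).trans
      (Equiv.sumCompl (fun i => a i ≠ 0))) f, Fintype.sum_sum_type]
    rfl
  have hall : ∀ p : Fin (3 + m + 1) → Prop, (∀ k, p (e4 k).1) → (∀ j, p (em j).1) →
      ∀ i, p i := by
    intro p h1 h2 i
    by_cases hi : a i ≠ 0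
    · have := h1 (e4.symm ⟨i, hi⟩)
      rwa [Equiv.apply_symm_apply] at this
    · have := h2 (em.symm ⟨i, hi⟩)
      rwa [Equiv.apply_symm_apply] at this
  have hvsum : ∀ x, v 0 ⬝ᵥ x + v 1 ⬝ᵥ x + v 2 ⬝ᵥ x + v 3 ⬝ᵥ x = 0 := by
    intro x
    have h1 := ha x
    rw [hsum] at h1
    have h2 : ∑ j, a (em j).1 * (w (em j).1 ⬝ᵥ x) = 0 := by
      refine Finset.sum_eq_zero fun j _ => ?_
      have : a (em j).1 = 0 := not_not.1 (em j).2
      rw [this, zero_mul]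
    have h3 : ∀ k, a (e4 k).1 * (w (e4 k).1 ⬝ᵥ x) = W / 4 * (v k ⬝ᵥ x) := by
      intro k
      have g1 := a_mul_ep a (e4 k).1
      have g2 := h4 _ (e4 k).2
      have g3 : a (e4 k).1 = |a (e4 k).1| * ep a (e4 k).1 := by
        rw [← g1]
        rcases hep (e4 k).1 with h | h <;> rw [h] <;> ring
      have g4 : W / 4 = |a (e4 k).1| := by linarith
      simp only [hv, smul_dotProduct, smul_eq_mul]
      rw [g4]
      conv_lhs => rw [g3]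
      ring
    rw [h2, add_zero, Finset.sum_congr rfl fun k _ => h3 k, ← Finset.mul_sum,
      Fin.sum_univ_four] at h1
    rcases mul_eq_zero.1 h1 with h | h
    · linarith
    · exact h
  obtain ⟨L, hL⟩ := exists_equiv (Fin.append
    ![(1 / 2 : ℝ) • (v 0 + v 1), (1 / 2 : ℝ) • (v 0 + v 2), (1 / 2 : ℝ) • (v 0 + v 3)]
    (fun j => w (em j).1)) (by
    intro z hz
    have z0 := hz (Fin.castAdd m 0)
    have z1 := hz (Fin.castAdd m 1)
    have z2 := hz (Fin.castAdd m 2)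
    rw [Fin.append_left] at z0 z1 z2
    have y0 : (1 / 2 : ℝ) * (v 0 ⬝ᵥ z + v 1 ⬝ᵥ z) = 0 := by
      rw [← add_dotProduct, ← smul_eq_mul, ← smul_dotProduct]
      exact z0
    have y1 : (1 / 2 : ℝ) * (v 0 ⬝ᵥ z + v 2 ⬝ᵥ z) = 0 := by
      rw [← add_dotProduct, ← smul_eq_mul, ← smul_dotProduct]
      exact z1
    have y2 : (1 / 2 : ℝ) * (v 0 ⬝ᵥ z + v 3 ⬝ᵥ z) = 0 := by
      rw [← add_dotProduct, ← smul_eq_mul, ← smul_dotProduct]
      exact z2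
    have y3 := hvsum z
    apply hinj
    refine hall _ ?_ ?_
    · intro k
      rw [← abs_eq_zero, ← habs, abs_eq_zero]
      fin_cases k
      · show v 0 ⬝ᵥ z = 0
        linarith
      · show v 1 ⬝ᵥ z = 0
        linarith
      · show v 2 ⬝ᵥ z = 0
        linarith
      · show v 3 ⬝ᵥ z = 0
        linarith
    · intro j
      have := hz (Fin.natAdd 3 j)
      rwa [Fin.append_right] at this)
  rw [← pro_eq_OC]
  refine ⟨L, by omega, han_oct_cube m, ?_⟩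
  ext x
  have x0 : L x (Fin.castAdd m 0) = (1 / 2 : ℝ) * (v 0 ⬝ᵥ x + v 1 ⬝ᵥ x) := by
    rw [hL, Fin.append_left, ← add_dotProduct, ← smul_eq_mul, ← smul_dotProduct]
    rfl
  have x1 : L x (Fin.castAdd m 1) = (1 / 2 : ℝ) * (v 0 ⬝ᵥ x + v 2 ⬝ᵥ x) := by
    rw [hL, Fin.append_left, ← add_dotProduct, ← smul_eq_mul, ← smul_dotProduct]
    rfl
  have x2 : L x (Fin.castAdd m 2) = (1 / 2 : ℝ) * (v 0 ⬝ᵥ x + v 3 ⬝ᵥ x) := by
    rw [hL, Fin.append_left, ← add_dotProduct, ← smul_eq_mul, ← smul_dotProduct]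
    rfl
  have x3 : ∀ j, L x (Fin.natAdd 3 j) = w (em j).1 ⬝ᵥ x := by
    intro j
    rw [hL, Fin.append_right]
  have y3 := hvsum x
  have c0 : L x (Fin.castAdd m 0) + L x (Fin.castAdd m 1) + L x (Fin.castAdd m 2) =
      v 0 ⬝ᵥ x := by rw [x0, x1, x2]; linarith
  have c1 : L x (Fin.castAdd m 0) - L x (Fin.castAdd m 1) - L x (Fin.castAdd m 2) =
      v 1 ⬝ᵥ x := by rw [x0, x1, x2]; linarith
  have c2 : L x (Fin.castAdd m 1) - L x (Fin.castAdd m 0) - L x (Fin.castAdd m 2) =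
      v 2 ⬝ᵥ x := by rw [x0, x1, x2]; linarith
  have c3 : L x (Fin.castAdd m 2) - L x (Fin.castAdd m 0) - L x (Fin.castAdd m 1) =
      v 3 ⬝ᵥ x := by rw [x0, x1, x2]; linarith
  have hmem : (L x ∈ Pro (Pol (Cube 3)) (Cube m)) ↔
      (|v 0 ⬝ᵥ x| ≤ 1 ∧ |v 1 ⬝ᵥ x| ≤ 1 ∧ |v 2 ⬝ᵥ x| ≤ 1 ∧ |v 3 ⬝ᵥ x| ≤ 1) ∧
      ∀ j, |w (em j).1 ⬝ᵥ x| ≤ 1 := by
    rw [← c0, ← c1, ← c2, ← c3]
    simp only [← x3]
    exact and_congr (oct_iff (fun i => L x (Fin.castAdd m i))) Iff.rfl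
  show (∀ i, |w i ⬝ᵥ x| ≤ 1) ↔ L x ∈ Pro (Pol (Cube 3)) (Cube m)
  rw [hmem]
  constructor
  · intro h
    refine ⟨⟨?_, ?_, ?_, ?_⟩, fun j => h _⟩ <;> rw [habs] <;> exact h _
  · rintro ⟨⟨g0, g1, g2, g3⟩, h⟩
    refine hall _ ?_ h
    intro k
    rw [← habs]
    fin_cases k
    · exact g0
    · exact g1
    · exact g2
    · exact g3

theorem facet_classify {d : ℕ} (hd : 1 ≤ d) (w : Fin (d + 1) → Fin d → ℝ)
    (hinj : ∀ z, (∀ i, w i ⬝ᵥ z = 0) → z = 0) (a : Fin (d + 1) → ℝ) (ha0 : ∃ i, a i ≠ 0)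
    (ha : ∀ z, ∑ i, a i * (w i ⬝ᵥ z) = 0)
    (hcl : (∃ i, ∑ j, |a j| ≤ 2 * |a i|) ∨ ∀ i, a i ≠ 0 → 4 * |a i| = ∑ j, |a j|) :
    ∃ (L : (Fin d → ℝ) ≃ₗ[ℝ] (Fin d → ℝ)) (Q : Set (Fin d → ℝ)), Han d Q ∧
      (Q = Cube d ∨ (3 ≤ d ∧ Q = OC d)) ∧ {x | ∀ i, |w i ⬝ᵥ x| ≤ 1} = {x | L x ∈ Q} := by
  rcases hcl with ⟨i0, hi0⟩ | h4
  · obtain ⟨L, hL⟩ := classify_one w hinj a ha0 ha i0 hi0
    obtain ⟨n, rfl⟩ : ∃ n, d = n + 1 := ⟨d - 1, by omega⟩
    exact ⟨L, Cube (n + 1), han_cube n, Or.inl rfl, hL⟩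
  · obtain ⟨L, h3, hH, hL⟩ := classify_four w hinj a ha0 ha h4
    exact ⟨L, OC d, hH, Or.inr ⟨h3, rfl⟩, hL⟩

end Pool.Agent.K3E
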