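import Mathlib
import Pool.Agent.K3E.Cls

/-!
# Equality in the 3^d conjecture, few pairs: polarity
-/

open scoped BigOperators

namespace Pool.Agent.K3E

lemma pol_hull {d m : ℕ} (v : Fin m → Fin d → ℝ) {P : Set (Fin d → ℝ)}
    (hP : P = convexHull ℝ (Set.range v ∪ Set.range (fun i => -v i))) :
    Pol P = {x | ∀ i, |v i ⬝ᵥ x| ≤ 1} := by
  have hvP : ∀ i, v i ∈ P := fun i => by
    rw [hP]; exact subset_convexHull ℝ _ (Or.inl ⟨i, rfl⟩)
  have hvP' : ∀ i, -v i ∈ P := fun i => by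
    rw [hP]; exact subset_convexHull ℝ _ (Or.inr ⟨i, rfl⟩)
  ext y
  constructor
  · intro h i
    have h1 : v i ⬝ᵥ y ≤ 1 := h _ (hvP i)
    have h2 : (-v i) ⬝ᵥ y ≤ 1 := h _ (hvP' i)
    rw [neg_dotProduct] at h2
    exact abs_le.2 ⟨by linarith, h1⟩
  · intro h x hx
    show x ⬝ᵥ y ≤ 1
    rw [dotProduct_comm]
    exact vertex_le v hP y 1 h x hx

lemma bipolar {d : ℕ} {P : Set (Fin d → ℝ)} (hconv : Convex ℝ P) (hcl : IsClosed P)
    (h0 : (0 : Fin d → ℝ) ∈ P) : Pol (Pol P) = P := by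
  classical
  ext x
  constructor
  · intro h
    by_contra hx
    obtain ⟨f, u, hf, hu⟩ := geometric_hahn_banach_closed_point hconv hcl hx
    have hu0 : 0 < u := by
      have := hf 0 h0
      rwa [map_zero] at this
    have hfy : ∀ y : Fin d → ℝ, f y = ∑ i, f (Pi.single i 1) * y i := by
      intro y
      have : y = ∑ i, y i • (Pi.single i (1 : ℝ) : Fin d → ℝ) := by
        funext k
        simp [Finset.sum_apply, Pi.single_apply]
      conv_lhs => rw [this, map_sum]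
      simp only [map_smul, smul_eq_mul]
      exact Finset.sum_congr rfl fun i _ => mul_comm _ _
    have hmem : (fun i => f (Pi.single i 1) / u) ∈ Pol P := by
      intro a ha
      have h1 := (hf a ha).le
      rw [hfy a] at h1
      have h2 : ∑ i, a i * (f (Pi.single i 1) / u) = (∑ i, f (Pi.single i 1) * a i) / u := by
        rw [Finset.sum_div]
        exact Finset.sum_congr rfl fun i _ => by ring
      rw [h2, div_le_one hu0]
      exact h1
    have h3 := h _ hmem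
    have h4 : ∑ i, (f (Pi.single i 1) / u) * x i = (∑ i, f (Pi.single i 1) * x i) / u := by
      rw [Finset.sum_div]
      exact Finset.sum_congr rfl fun i _ => by ring
    rw [h4, div_le_one hu0, ← hfy x] at h3
    linarith
  · intro hx y hy
    have := hy x hx
    have h1 : ∑ i, y i * x i = ∑ i, x i * y i := Finset.sum_congr rfl fun i _ => mul_comm _ _
    rw [h1]
    exact this

lemma pol_linear {d : ℕ} (L : (Fin d → ℝ) ≃ₗ[ℝ] (Fin d → ℝ)) (Q : Set (Fin d → ℝ)) :
    ∃ M : (Fin d → ℝ) ≃ₗ[ℝ] (Fin d → ℝ), Pol {x | L x ∈ Q} = {y | M y ∈ Pol Q} := by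
  classical
  have hf : ∀ q y : Fin d → ℝ, ∑ i, q i * ((L.symm (Pi.single i 1)) ⬝ᵥ y) =
      (L.symm q) ⬝ᵥ y := by
    intro q y
    have : q = ∑ i, q i • (Pi.single i (1 : ℝ) : Fin d → ℝ) := by
      funext k
      simp [Finset.sum_apply, Pi.single_apply]
    conv_rhs => rw [this, map_sum]
    rw [sum_dotProduct]
    refine Finset.sum_congr rfl fun i _ => ?_
    rw [map_smul, smul_dotProduct, smul_eq_mul]
  obtain ⟨M, hM⟩ := exists_equiv (fun i => L.symm (Pi.single i 1)) (by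
    intro z hz
    have h1 := hf (L z) z
    simp only [hz, mul_zero, Finset.sum_const_zero, LinearEquiv.symm_apply_apply] at h1
    exact dotProduct_self_eq_zero.1 h1.symm)
  refine ⟨M, ?_⟩
  ext y
  constructor
  · intro h q hq
    have h1 := h (L.symm q) (by
      show L (L.symm q) ∈ Q
      rw [LinearEquiv.apply_symm_apply]
      exact hq)
    have h2 := hf q y
    simp only [hM]
    rw [h2]
    exact h1
  · intro h x hx
    have h1 := h (L x) hx
    simp only [hM] at h1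
    rw [hf (L x) y, LinearEquiv.symm_apply_apply] at h1
    exact h1

theorem vertex_classify {d : ℕ} (hd : 1 ≤ d) (v : Fin (d + 1) → Fin d → ℝ)
    {P : Set (Fin d → ℝ)}
    (hP : P = convexHull ℝ (Set.range v ∪ Set.range (fun i => -v i)))
    (hinj : ∀ z, (∀ i, v i ⬝ᵥ z = 0) → z = 0) (a : Fin (d + 1) → ℝ) (ha0 : ∃ i, a i ≠ 0)
    (ha : ∀ z, ∑ i, a i * (v i ⬝ᵥ z) = 0)
    (hcl : (∃ i, ∑ j, |a j| ≤ 2 * |a i|) ∨ ∀ i, a i ≠ 0 → 4 * |a i| = ∑ j, |a j|) :
    ∃ (L : (Fin d → ℝ) ≃ₗ[ℝ] (Fin d → ℝ)) (Q : Set (Fin d → ℝ)), Han d Q ∧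
      (Q = Cross d ∨ (3 ≤ d ∧ Q = CO d)) ∧ P = {x | L x ∈ Q} := by
  obtain ⟨L, Q, hQ, hQl, hL⟩ := facet_classify hd v hinj a ha0 ha hcl
  obtain ⟨M, hM⟩ := pol_linear L Q
  refine ⟨M, Pol Q, hQ.pol, ?_, ?_⟩
  · rcases hQl with rfl | ⟨h3, rfl⟩
    · exact Or.inl (pol_cube d)
    · exact Or.inr ⟨h3, pol_OC h3⟩
  have hconv : Convex ℝ P := by
    rw [hP]
    exact convex_convexHull ℝ _
  have hcl : IsClosed P := by
    rw [hP]
    exact (Set.Finite.isCompact_convexHull ℝ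
      ((Set.finite_range v).union (Set.finite_range _))).isClosed
  have h0 : (0 : Fin d → ℝ) ∈ P := by
    have h1 : v 0 ∈ P := by rw [hP]; exact subset_convexHull ℝ _ (Or.inl ⟨0, rfl⟩)
    have h2 : -v 0 ∈ P := by rw [hP]; exact subset_convexHull ℝ _ (Or.inr ⟨0, rfl⟩)
    have := hconv h1 h2 (a := 1 / 2) (b := 1 / 2) (by norm_num) (by norm_num) (by norm_num)
    simpa using this
  rw [← bipolar hconv hcl h0, pol_hull v hP, hL, hM]

end Pool.Agent.K3E
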