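import Mathlib
import Pool.Agent.K3E.Plr
import Pool.Agent.K3E.Cnt
import Pool.Agent.K3E.Aff

/-!
# Equality in the 3^d conjecture, few pairs: the centred cases
-/

open scoped BigOperators

open Pool.Agent.KalaiFew

namespace Pool.Agent.K3E

lemma half_sys {d : ℕ} (V : Finset (Fin d → ℝ)) (hneg : ∀ x ∈ V, -x ∈ V)
    (h0 : (0 : Fin d → ℝ) ∉ V) :
    ∃ T : Finset (Fin d → ℝ), 2 * T.card = V.card ∧ ∀ x, x ∈ V ↔ (x ∈ T ∨ -x ∈ T) := by
  classical
  set T : Finset (Fin d → ℝ) := V.filter (fun x => WellOrderingRel x (-x)) with hT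
  have hne : ∀ x ∈ V, x ≠ -x := by
    intro x hx h
    have h2 : (2 : ℝ) • x = 0 := by
      rw [two_smul]
      calc x + x = x + -x := by rw [← h]
        _ = 0 := add_neg_cancel x
    have : x = 0 := (smul_eq_zero.1 h2).resolve_left two_ne_zero
    rw [this] at hx
    exact h0 hx
  have hmem : ∀ x, x ∈ V ↔ (x ∈ T ∨ -x ∈ T) := by
    intro x
    constructor
    · intro hx
      rcases trichotomous_of (WellOrderingRel (α := Fin d → ℝ)) x (-x) with h | h | h
      · exact Or.inl (Finset.mem_filter.2 ⟨hx, h⟩)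
      · exact absurd h (hne x hx)
      · exact Or.inr (Finset.mem_filter.2 ⟨hneg x hx, by rw [neg_neg]; exact h⟩)
    · rintro (h | h)
      · exact (Finset.mem_filter.1 h).1
      · have := hneg _ (Finset.mem_filter.1 h).1
        rwa [neg_neg] at this
  refine ⟨T, ?_, hmem⟩
  have hU : V = T ∪ T.image (fun x => -x) := by
    ext x
    rw [hmem x, Finset.mem_union, Finset.mem_image]
    constructor
    · rintro (h | h)
      · exact Or.inl h
      · exact Or.inr ⟨-x, h, neg_neg x⟩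
    · rintro (h | ⟨y, hy, rfl⟩)
      · exact Or.inl h
      · exact Or.inr (by rw [neg_neg]; exact hy)
  have hdisj : Disjoint T (T.image (fun x => -x)) := by
    rw [Finset.disjoint_left]
    intro x hx hx'
    rw [Finset.mem_image] at hx'
    obtain ⟨y, hy, rfl⟩ := hx'
    have h1 := (Finset.mem_filter.1 hx).2
    have h2 := (Finset.mem_filter.1 hy).2
    rw [neg_neg] at h1
    exact asymm_of (WellOrderingRel (α := Fin d → ℝ)) h1 h2
  calc 2 * T.card = T.card + (T.image (fun x => -x)).card := by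
        rw [Finset.card_image_of_injective _ neg_injective]; ring
    _ = (T ∪ T.image (fun x => -x)).card := (Finset.card_union_of_disjoint hdisj).symm
    _ = V.card := by rw [← hU]

lemma ex_range {d : ℕ} (T : Finset (Fin d → ℝ)) (hT : T.Nonempty) (hc : T.card ≤ d + 1) :
    ∃ v : Fin (d + 1) → Fin d → ℝ, Set.range v = (T : Set (Fin d → ℝ)) := by
  classical
  have hc' : Fintype.card T ≤ Fintype.card (Fin (d + 1)) := by simpa using hc
  obtain ⟨f⟩ := Function.Embedding.nonempty_of_card_le hc'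
  obtain ⟨t, ht⟩ := hT
  have : Nonempty T := ⟨⟨t, ht⟩⟩
  refine ⟨fun i => (Function.invFun (f : T → Fin (d + 1)) i).1, ?_⟩
  ext x
  constructor
  · rintro ⟨i, rfl⟩
    exact (Function.invFun (f : T → Fin (d + 1)) i).2
  · intro hx
    obtain ⟨i, hi⟩ := Function.invFun_surjective f.injective ⟨x, hx⟩
    exact ⟨i, by show (Function.invFun (f : T → Fin (d + 1)) i).1 = x; rw [hi]⟩

lemma centred_facet {d : ℕ} (hd : 1 ≤ d) {P : Set (Fin d → ℝ)} (w : Fin (d + 1) → Fin d → ℝ)
    (hP : P = {x | ∀ i, |w i ⬝ᵥ x| ≤ 1}) (hb : Bornology.IsBounded P)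
    (hcount : (Fc P).ncard = 3 ^ d) :
    ∃ (L : (Fin d → ℝ) ≃ₗ[ℝ] (Fin d → ℝ)) (Q : Set (Fin d → ℝ)), Han d Q ∧
      (Q = Cube d ∨ (3 ≤ d ∧ Q = OC d)) ∧ P = {x | L x ∈ Q} := by
  have hinj := inj_of_bounded w hP hb
  obtain ⟨a, ha0, ha⟩ := hyperplane w hinj
  have hfin : (Fc P).Finite := by
    apply Set.finite_of_ncard_ne_zero
    rw [hcount]
    positivity
  have h1 := facet_count w hP a (fun y hy => (ha y).1 hy) hfin
  rw [hcount] at h1
  have hcl := count_classify a ha0 h1
  obtain ⟨L, Q, hQ, hQl, hL⟩ := facet_classify hd w hinj a ha0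
    (fun z => (ha _).2 ⟨z, fun i => rfl⟩) hcl
  exact ⟨L, Q, hQ, hQl, by rw [hP]; exact hL⟩

lemma centred_vertex {d : ℕ} (hd : 1 ≤ d) {P : Set (Fin d → ℝ)} (S : Finset (Fin d → ℝ))
    (hS : P = convexHull ℝ (S : Set (Fin d → ℝ))) (hint : (interior P).Nonempty)
    (hsym : ∀ x ∈ P, -x ∈ P) (h : (Set.extremePoints ℝ P).ncard ≤ 2 * d + 2)
    (hcount : (Fc P).ncard = 3 ^ d) :
    ∃ (L : (Fin d → ℝ) ≃ₗ[ℝ] (Fin d → ℝ)) (Q : Set (Fin d → ℝ)), Han d Q ∧
      (Q = Cross d ∨ (3 ≤ d ∧ Q = CO d)) ∧ P = {x | L x ∈ Q} := by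
  classical
  have hcomp : IsCompact P := by
    rw [hS]
    exact Set.Finite.isCompact_convexHull ℝ S.finite_toSet
  have hconv : Convex ℝ P := by
    rw [hS]
    exact convex_convexHull ℝ _
  have hVS : Set.extremePoints ℝ P ⊆ (S : Set (Fin d → ℝ)) := by
    rw [hS]
    exact extremePoints_convexHull_subset
  have hVfin : (Set.extremePoints ℝ P).Finite := S.finite_toSet.subset hVS
  set V : Finset (Fin d → ℝ) := hVfin.toFinset with hV
  have hVmem : ∀ x, x ∈ V ↔ x ∈ Set.extremePoints ℝ P := fun x => hVfin.mem_toFinset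
  have hVcard : V.card ≤ 2 * d + 2 := by
    rw [Set.ncard_eq_toFinset_card _ hVfin] at h
    exact h
  -- P is the hull of V
  have hPV : P = convexHull ℝ (V : Set (Fin d → ℝ)) := by
    have h1 := closure_convexHull_extremePoints hcomp hconv
    have h2 : (V : Set (Fin d → ℝ)) = Set.extremePoints ℝ P := by
      ext x; exact hVmem x
    have h3 : IsClosed (convexHull ℝ (V : Set (Fin d → ℝ))) :=
      (Set.Finite.isCompact_convexHull ℝ V.finite_toSet).isClosed
    rw [← h2, h3.closure_eq] at h1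
    exact h1.symm
  -- V is symmetric
  have hVneg : ∀ x ∈ V, -x ∈ V := by
    intro x hx
    rw [hVmem] at hx ⊢
    refine ⟨hsym x hx.1, ?_⟩
    intro x₁ h₁ x₂ h₂ hseg
    have h₁' := hsym x₁ h₁
    have h₂' := hsym x₂ h₂
    have hseg' : x ∈ openSegment ℝ (-x₁) (-x₂) := by
      obtain ⟨s, t, hs, ht, hst, hx'⟩ := hseg
      refine ⟨s, t, hs, ht, hst, ?_⟩
      rw [smul_neg, smul_neg, ← neg_add, hx', neg_neg]
    have := hx.2 h₁' h₂' hseg'
    rw [← this, neg_neg]
  -- zero is not a vertex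
  have hV0 : (0 : Fin d → ℝ) ∉ V := by
    intro h0
    rw [hVmem] at h0
    have hP0 : P ⊆ {0} := by
      intro x hx
      have hseg : (0 : Fin d → ℝ) ∈ openSegment ℝ x (-x) :=
        ⟨1 / 2, 1 / 2, by norm_num, by norm_num, by norm_num, by simp⟩
      exact h0.2 hx (hsym x hx) hseg
    obtain ⟨x₀, hx₀⟩ := hint
    have : Nonempty (Fin d) := ⟨⟨0, hd⟩⟩
    have h1 : interior ({0} : Set (Fin d → ℝ)) = ∅ := interior_singleton _
    have h2 := interior_mono hP0 hx₀
    rw [h1] at h2
    exact h2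
  obtain ⟨T, hTc, hTm⟩ := half_sys V hVneg hV0
  have hTne : T.Nonempty := by
    rw [Finset.nonempty_iff_ne_empty]
    intro hT0
    have hV1 : V = ∅ := by
      rw [hT0, Finset.card_empty, mul_zero] at hTc
      exact Finset.card_eq_zero.1 hTc.symm
    rw [hV1] at hPV
    simp only [Finset.coe_empty, convexHull_empty] at hPV
    rw [hPV] at hint
    simp at hint
  obtain ⟨v, hv⟩ := ex_range T hTne (by omega)
  have hPv : P = convexHull ℝ (Set.range v ∪ Set.range (fun i => -v i)) := by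
    rw [hPV]
    congr 1
    ext x
    rw [Finset.mem_coe, hTm x]
    constructor
    · rintro (hx | hx)
      · left; rw [hv]; exact hx
      · right
        have : -x ∈ Set.range v := by rw [hv]; exact hx
        obtain ⟨i, hi⟩ := this
        exact ⟨i, by show -v i = x; rw [hi, neg_neg]⟩
    · rintro (hx | ⟨i, rfl⟩)
      · left; rw [hv] at hx; exact hx
      · right
        have : v i ∈ (T : Set (Fin d → ℝ)) := by rw [← hv]; exact ⟨i, rfl⟩
        show - -v i ∈ T
        rw [neg_neg]; exact this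
  have hinj := inj_of_interior v hPv hint
  obtain ⟨a, ha0, ha⟩ := hyperplane v hinj
  have hfin : (Fc P).Finite := by
    apply Set.finite_of_ncard_ne_zero
    rw [hcount]
    positivity
  have h1 := vertex_count v hPv a (fun y hy => (ha y).1 hy) hfin
  rw [hcount] at h1
  have hcl := count_classify a ha0 h1
  exact vertex_classify hd v hPv hinj a ha0 (fun z => (ha _).2 ⟨z, fun i => rfl⟩) hcl

end Pool.Agent.K3E
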